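import Pool.Agent.K1H82.KM.Tor
import Pool.Agent.W279.Tri.LocComp

/-!
# The local Zariski closures
-/

set_option autoImplicit false
set_option linter.unusedSectionVars false

open MvPolynomial Pool.Agent.TH954.X Filter Topology

namespace Pool.Agent.K1H82.KM

section near

variable {K : Type} [Field K] {n r N : ℕ} {L E : Type} [NontriviallyNormedField L] [ProperSpace L]
  [Field E] [Algebra L E] [FiniteDimensional L E] [TopologicalSpace E] [IsModuleTopology L E]
  [Algebra K E] [Algebra K L] [IsScalarTower K L E]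

theorem near {Fam : Finset (Fin N → MvPolynomial (Fin r × Fin n) K)} {d : Fin r → ℕ}
    (hFam : ∀ C ∈ Fam, ∀ c, MH d (C c)) (A : Fin r → AbVar K n) (P : Pts A E) (y : Fin N → K)
    (hy : Val Fam (crds P) (fun i => algebraMap K E (y i))) {U : Set (Fin N → L)}
    (hU : IsOpen U) (h0 : (0 : Fin N → L) ∉ U) {c0 : L}
    (hc0 : (fun i => c0 * algebraMap K L (y i)) ∈ U) :
    ∃ W : Fin r → Set (Fin n → E), (∀ b, W b ∈ 𝓝 (0 : (A b).Pt E).1) ∧
      ∀ m : Fin r → ℤ, (∀ b, Nr (W b) (m b • P b).1) → ∀ y' : Fin N → K,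
        Val Fam (crds (A := A) (fun b => (1 + m b) • P b)) (fun i => algebraMap K E (y' i)) →
        ∃ c : L, c ≠ 0 ∧ (fun i => c * algebraMap K L (y' i)) ∈ U := by
  have := topring L E
  obtain ⟨C, hC, s, hs, hCs⟩ := hy.exists_ne
  obtain ⟨ℓ, hℓ⟩ := LinearMap.exists_leftInverse_of_injective (Algebra.linearMap L E)
    (LinearMap.ker_eq_bot.2 (algebraMap L E).injective)
  have hℓ' : ∀ (z : L) (e : E), ℓ (e * algebraMap L E z) = z * ℓ e := by
    intro z e
    rw [mul_comm, ← Algebra.smul_def, map_smul, smul_eq_mul]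
  have hℓ1 : ∀ z : L, ℓ (algebraMap L E z) = z := fun z => LinearMap.congr_fun hℓ z
  have hℓc : Continuous ℓ := IsModuleTopology.continuous_of_linearMap ℓ
  set Ψ : (Fin r → Fin n → E) → (Fin N → L) := fun u i => c0 * ℓ (s⁻¹ * ev (C i) u) with hΨ
  have hΨc : Continuous Ψ := continuous_pi fun i => continuous_const.mul
    (hℓc.comp (continuous_const.mul (cont_ev (L := L) (C i))))
  have hΨ0 : Ψ (crds P) = fun i => c0 * algebraMap K L (y i) := by
    funext i
    have h1 : ev (C i) (crds P) = s * algebraMap K E (y i) := congrFun hCs i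
    simp only [hΨ]
    rw [h1, inv_mul_cancel_left₀ hs, IsScalarTower.algebraMap_apply K L E, hℓ1]
  have h1 : Ψ ⁻¹' U ∈ 𝓝 (crds P) := hΨc.continuousAt.preimage_mem_nhds (by
    rw [hΨ0]
    exact hU.mem_nhds hc0)
  obtain ⟨V, hV, hVU⟩ : ∃ V : Fin r → Set (Fin n → E), (∀ b, V b ∈ 𝓝 (crds P b)) ∧
      ∀ u, (∀ b, u b ∈ V b) → u ∈ Ψ ⁻¹' U := by
    rw [nhds_pi, Filter.mem_pi] at h1
    obtain ⟨I, -, V, hV, h2⟩ := h1
    exact ⟨V, hV, fun u hu => h2 (fun b _ => hu b)⟩
  have h2 : ∀ b, ∃ W ∈ 𝓝 (0 : (A b).Pt E).1, ∀ Q : (A b).Pt E, Nr W Q.1 →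
      Nr (V b) (P b + Q).1 := by
    intro b
    obtain ⟨W1, hW1, W2, hW2, h12⟩ := cont_add (L := L) (A b) (P b) 0 (W := V b) (by
      rw [add_zero]
      exact hV b)
    exact ⟨W2, hW2, fun Q hQ => h12 (P b) Q ⟨1, one_ne_zero, by
      rw [one_smul]
      exact mem_of_mem_nhds hW1⟩ hQ⟩
  choose W hW hW' using h2
  refine ⟨W, hW, fun m hm y' hy' => ?_⟩
  have h3 : ∀ b, ∃ t : E, t ≠ 0 ∧ t • ((1 + m b) • P b).1 ∈ V b := by
    intro b
    have := hW' b _ (hm b)
    rw [add_smul, one_smul]
    exact this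
  choose t ht ht' using h3
  have h4 : Ψ (fun b => t b • ((1 + m b) • P b).1) ∈ U := hVU _ ht'
  obtain ⟨s', hs'⟩ := hy'.1 C hC
  have h5 : Ψ (fun b => t b • ((1 + m b) • P b).1) =
      fun i => (c0 * ℓ (s⁻¹ * ((∏ b, t b ^ d b) * s'))) * algebraMap K L (y' i) := by
    funext i
    have h6 : ev (C i) (crds (A := A) fun b => (1 + m b) • P b) = s' * algebraMap K E (y' i) :=
      congrFun hs' i
    have h7 := ev_smul (hFam C hC i) t (crds (A := A) fun b => (1 + m b) • P b)
    change c0 * ℓ (s⁻¹ * ev (C i)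
      (fun b => t b • crds (A := A) (fun b => (1 + m b) • P b) b)) = _
    rw [h7, h6, IsScalarTower.algebraMap_apply K L E, ← mul_assoc (∏ b, t b ^ d b),
      ← mul_assoc s⁻¹, hℓ']
    ring
  rw [h5] at h4
  refine ⟨_, ?_, h4⟩
  intro h0'
  apply h0
  have h8 : (fun i => (c0 * ℓ (s⁻¹ * ((∏ b, t b ^ d b) * s'))) * algebraMap K L (y' i)) =
      (0 : Fin N → L) := by
    funext i
    rw [h0', zero_mul]
    rfl
  rw [h8] at h4
  exact h4

end near

section multi

variable {K : Type} [Field K] {n r N : ℕ} {A : Fin r → AbVar K n}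

/-- the indices for which the component is of infinite order -/
def NT (P : Pts A (AlgebraicClosure K)) : Set (Fin r) := {b | ∀ m : ℤ, m ≠ 0 → m • P b ≠ 0}

theorem multi (hA : ∀ b, GeomSimple (A b)) (P : Pts A (AlgebraicClosure K))
    (𝓤 : Fin r → Set (Set ℤ)) (h𝓤 : ∀ b, IsBas (𝓤 b)) (U : Fin r → Set ℤ) (hU : ∀ b, U b ∈ 𝓤 b)
    {Φ : MvPolynomial (Fin r × Fin n) K} {τ : Fin r → ℕ} (hΦ : MH τ Φ)
    (h : ∀ m : Fin r → ℤ, (∀ b, m b ∈ U b) →
      ev Φ (crds (A := A) (fun b => (1 + m b) • P b)) = 0)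
    (Q : Pts A (AlgebraicClosure K)) (hQ : ∀ b, b ∉ NT P → Q b = P b) : ev Φ (crds Q) = 0 := by
  classical
  have key : ∀ S : Finset (Fin r), (∀ b ∈ S, b ∈ NT P) → ∀ Q : Pts A (AlgebraicClosure K),
      (∀ b, b ∉ S → ∃ m ∈ U b, Q b = (1 + m) • P b) → ev Φ (crds Q) = 0 := by
    intro S
    induction S using Finset.induction_on with
    | empty =>
      intro _ Q hQ
      choose m hm hm' using fun b => hQ b (Finset.notMem_empty b)
      have : Q = fun b => (1 + m b) • P b := funext hm'
      rw [this]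
      exact h m hm
    | insert b0 S hb0 ih =>
      intro hS Q hQ
      have h1 : eval (Q b0).1 (spec b0 (crds Q) Φ) = 0 := by
        refine closure_trans (hA b0) (P b0) (hS b0 (Finset.mem_insert_self _ _)) (h𝓤 b0) (hU b0)
          (spec_hom b0 _ hΦ) (fun m hm => ?_) (Q b0)
        rw [spec_eval]
        have h2 := ih (fun b hb => hS b (Finset.mem_insert_of_mem hb))
          (Function.update Q b0 ((1 + m) • P b0)) (fun b hb => ?_)
        · have h3 : crds (Function.update Q b0 ((1 + m) • P b0)) =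
              fun j => if j = b0 then ((1 + m) • P b0).1 else crds Q j := by
            funext j
            by_cases hj : j = b0
            · subst hj
              simp [crds]
            · simp [crds, hj]
          rw [← h3]
          exact h2
        · by_cases hbb : b = b0
          · subst hbb
            exact ⟨m, hm, by rw [Function.update_self]⟩
          · obtain ⟨m', hm', hm2⟩ := hQ b (by
              rw [Finset.mem_insert, not_or]
              exact ⟨hbb, hb⟩)
            exact ⟨m', hm', by rw [Function.update_of_ne hbb]; exact hm2⟩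
      rw [spec_eval] at h1
      have h4 : (fun j => if j = b0 then (Q b0).1 else crds Q j) = crds Q := by
        funext j
        by_cases hj : j = b0
        · subst hj
          simp [crds]
        · simp [hj]
      rwa [h4] at h1
  refine key (Finset.univ.filter (· ∈ NT P)) (fun b hb => (Finset.mem_filter.1 hb).2) Q
    (fun b hb => ⟨0, (h𝓤 b).zero _ (hU b), ?_⟩)
  rw [add_zero, one_smul]
  refine hQ b (fun hb' => hb ?_)
  rw [Finset.mem_filter]
  exact ⟨Finset.mem_univ _, hb'⟩

end multi

section comp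

variable {K : Type} [Field K] {n r N : ℕ}

lemma hom_comp_zero [Infinite K] {f : MvPolynomial (Fin N) K} {y : Fin N → K}
    (h : ∀ a : K, eval (a • y) f = 0) (k : ℕ) : eval y (homogeneousComponent k f) = 0 := by
  set p : Polynomial K := ∑ i ∈ Finset.range (f.totalDegree + 1),
    Polynomial.C (eval y (homogeneousComponent i f)) * Polynomial.X ^ i with hp
  have hp0 : p = 0 := by
    apply Polynomial.funext
    intro a
    rw [Polynomial.eval_zero, hp, Polynomial.eval_finsetSum]
    have h1 : eval (a • y) f = ∑ i ∈ Finset.range (f.totalDegree + 1),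
        a ^ i * eval y (homogeneousComponent i f) := by
      conv_lhs => rw [← sum_homogeneousComponent f]
      rw [map_sum]
      refine Finset.sum_congr rfl (fun i _ => ?_)
      rw [eval_smul_hom (homogeneousComponent_isHomogeneous i f)]
    rw [← h a, h1]
    refine Finset.sum_congr rfl (fun i _ => ?_)
    rw [Polynomial.eval_mul, Polynomial.eval_C, Polynomial.eval_pow, Polynomial.eval_X, mul_comm]
  by_cases hk : k < f.totalDegree + 1
  · have h2 := congrArg (fun q : Polynomial K => q.coeff k) hp0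
    simp only [hp, Polynomial.finsetSum_coeff, Polynomial.coeff_C_mul, Polynomial.coeff_X_pow,
      Polynomial.coeff_zero] at h2
    rw [Finset.sum_eq_single k] at h2
    · simpa using h2
    · intro j _ hj
      rw [if_neg (Ne.symm hj), mul_zero]
    · intro hk'
      exact absurd (Finset.mem_range.2 hk) hk'
  · rw [homogeneousComponent_eq_zero _ _ (by omega), map_zero]

lemma aeval_of_comp {F : Type} [Field F] [Algebra K F] {f : MvPolynomial (Fin N) K}
    {z : Fin N → F} (h : ∀ k, aeval z (homogeneousComponent k f) = 0) (a : F) :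
    aeval (a • z) f = 0 := by
  rw [← sum_homogeneousComponent f, map_sum]
  refine Finset.sum_eq_zero (fun i _ => ?_)
  rw [aeval_smul' (homogeneousComponent_isHomogeneous i f), h, mul_zero]

lemma ev_aeval' {F : Type} [Field F] [Algebra K F] (g : MvPolynomial (Fin N) K)
    (C : Fin N → MvPolynomial (Fin r × Fin n) K) (u : Fin r → Fin n → F) :
    ev (aeval C g) u = aeval (fun c => ev (C c) u) g := by
  unfold ev
  exact MvPolynomial.comp_aeval_apply (f := C)
    (aeval (fun p : Fin r × Fin n => u p.1 p.2) : MvPolynomial (Fin r × Fin n) K →ₐ[K] F) g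

end comp

section main

variable {K : Type} [Field K] {n r N : ℕ} {A : Fin r → AbVar K n} {G : Type} [Group G]

/-- the image of the set of the points which agree with `P` outside `J` -/
def Zset (X : QuotVar A N G) (P : Pts A (AlgebraicClosure K)) (J : Set (Fin r)) :
    Set (Fin N → AlgebraicClosure K) :=
  {z | ∃ Q : Pts A (AlgebraicClosure K), (∀ b, b ∉ J → Q b = P b) ∧ Val X.Fam (crds Q) z}

/-- the polynomials which vanish on it -/
def ZI (X : QuotVar A N G) (P : Pts A (AlgebraicClosure K)) (J : Set (Fin r)) :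
    Set (MvPolynomial (Fin N) K) :=
  {f | ∀ z ∈ Zset X P J, ∀ a : AlgebraicClosure K, aeval (a • z) f = 0}

/-- a tuple of points over the algebraic closure is defined over a finite extension of `L` -/
lemma exists_fieldL {L : Type} [Field L] [Algebra K L]
    (φ : AlgebraicClosure K →ₐ[K] AlgebraicClosure L) (P : Pts A (AlgebraicClosure K)) :
    ∃ E : IntermediateField L (AlgebraicClosure L), FiniteDimensional L E ∧
      ∃ P' : Pts A E, ∀ b, mapPt (A b) (E.val.restrictScalars K) (P' b) = mapPt (A b) φ (P b) := by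
  refine ⟨IntermediateField.adjoin L (Set.range fun p : Fin r × Fin n => φ ((P p.1).1 p.2)),
    ?_, ?_⟩
  · have : Finite (Set.range fun p : Fin r × Fin n => φ ((P p.1).1 p.2)) := Set.finite_range _
    refine IntermediateField.finiteDimensional_adjoin (fun x _ => ?_)
    exact (AlgebraicClosure.isAlgebraic L).isIntegral.isIntegral x
  · set E := IntermediateField.adjoin L (Set.range fun p : Fin r × Fin n => φ ((P p.1).1 p.2))
      with hE
    have hmem : ∀ b c, φ ((P b).1 c) ∈ E := fun b c =>
      IntermediateField.subset_adjoin L _ ⟨(b, c), rfl⟩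
    refine ⟨fun b => ⟨fun c => ⟨φ ((P b).1 c), hmem b c⟩, ?_, fun i => ?_⟩, fun b => ?_⟩
    · obtain ⟨i, hi, hj⟩ := (P b).2.1
      refine ⟨i, Subtype.ext ?_, fun j hji => Subtype.ext ?_⟩
      · change φ ((P b).1 i) = 1
        rw [hi, map_one]
      · change φ ((P b).1 j) = 0
        rw [hj j hji, map_zero]
    · apply (E.val.restrictScalars K).toRingHom.injective
      have h1 := MvPolynomial.comp_aeval_apply (f := fun c => (⟨φ ((P b).1 c), hmem b c⟩ : E))
        (E.val.restrictScalars K) ((A b).eqn i)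
      change (E.val.restrictScalars K) _ = (E.val.restrictScalars K) 0
      rw [h1, map_zero]
      exact (mapPt (A b) φ (P b)).2.2 i
    · rfl

theorem loc_main [NumberField K] (hA : ∀ b, GeomSimple (A b)) (X : QuotVar A N G) {L : Type}
    [NontriviallyNormedField L] [CompleteSpace L] (σ : K →+* L) (hσ : DenseRange σ)
    (f : MvPolynomial (Fin N) K) {U : Set (Fin N → L)} (hU : IsOpen U) (h0 : (0 : Fin N → L) ∉ U)
    (hf : ∀ y : Fin N → K, y ≠ 0 → (∀ g ∈ X.eqX, eval y g = 0) →
      (∃ c : L, c ≠ 0 ∧ (fun i => c * σ (y i)) ∈ U) → ∀ a : K, eval (a • y) f = 0)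
    (P : Pts A (AlgebraicClosure K)) (y : Fin N → K) (hy : Val X.Fam (crds P) (up y))
    {c0 : L} (hc0 : (fun i => c0 * σ (y i)) ∈ U) : f ∈ ZI X P (NT P) := by
  have hprop : ProperSpace L := W279.Tri.properSpace_of_denseRange σ hσ
  let _ : Algebra K L := σ.toAlgebra
  have halg : ∀ z : K, algebraMap K L z = σ z := fun z => rfl
  let φ : AlgebraicClosure K →ₐ[K] AlgebraicClosure L := IsAlgClosed.lift
  obtain ⟨E, hE, P', hP'⟩ := exists_fieldL φ P
  let _ : TopologicalSpace E := moduleTopology L E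
  have : IsModuleTopology L E := ⟨rfl⟩
  set ψ : E →ₐ[K] AlgebraicClosure L := E.val.restrictScalars K with hψ
  have hup : ∀ y : Fin N → K, mapV φ (up y) = mapV ψ (fun i => algebraMap K E (y i)) := by
    intro y
    funext i
    change φ (algebraMap K (AlgebraicClosure K) (y i)) = ψ (algebraMap K E (y i))
    rw [AlgHom.commutes, AlgHom.commutes]
  have hval : ∀ (m : Fin r → ℤ) (y : Fin N → K),
      Val X.Fam (crds (A := A) (fun b => m b • P b)) (up y) →
      Val X.Fam (crds (A := A) (fun b => m b • P' b)) (fun i => algebraMap K E (y i)) := by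
    intro m y hy
    refine Val.of_map ψ ?_
    have h1 := hy.map φ
    rw [hup] at h1
    have h2 : (fun j c => φ (crds (A := A) (fun b => m b • P b) j c)) =
        fun j c => ψ (crds (A := A) (fun b => m b • P' b) j c) := by
      funext j c
      have h3 : mapH (A j) φ (m j • P j) = mapH (A j) ψ (m j • P' j) := by
        rw [map_zsmul, map_zsmul, mapH_apply, mapH_apply, hP']
      exact congrArg (fun R : (A j).Pt (AlgebraicClosure L) => R.1 c) h3
    rw [h2] at h1
    exact h1
  have hv' : Val X.Fam (crds P') (fun i => algebraMap K E (y i)) := by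
    have h1 := hval (fun _ => 1) y (by simpa only [one_smul] using hy)
    simpa only [one_smul] using h1
  obtain ⟨W, hW, hnear⟩ := near X.Fam_hom A P' y hv' hU h0 hc0
  have key : ∀ k, ∀ C ∈ X.Fam, ∀ Q : Pts A (AlgebraicClosure K), (∀ b, b ∉ NT P → Q b = P b) →
      ev (aeval C (homogeneousComponent k f)) (crds Q) = 0 := by
    intro k C hC Q hQ
    refine multi hA P
      (fun b => {U | ∃ W ∈ 𝓝 (0 : (A b).Pt E).1, U = {m : ℤ | Nr W (m • P' b).1}})
      (fun b => isBas_nr (L := L) (A b) (P' b)) (fun b => {m | Nr (W b) (m • P' b).1})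
      (fun b => ⟨W b, hW b, rfl⟩)
      (MH_aeval (homogeneousComponent_isHomogeneous k f) C (X.Fam_hom C hC)) (fun m hm => ?_) Q hQ
    obtain ⟨y', hy', hy'e, hy'v⟩ := rat X P y hy (fun b => 1 + m b)
    obtain ⟨c, hc, hcU⟩ := hnear m hm y' (hval _ y' hy'v)
    have h2 : eval y' (homogeneousComponent k f) = 0 :=
      hom_comp_zero (hf y' hy'.ne_zero hy'e ⟨c, hc, hcU⟩) k
    obtain ⟨s, hs⟩ := hy'v.1 C hC
    rw [ev_aeval', hs, aeval_smul' (homogeneousComponent_isHomogeneous k f),
      (eval_up_iff y' _).2 h2, mul_zero]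
  rintro z ⟨Q, hQ, hz⟩ a
  refine aeval_of_comp (fun k => ?_) a
  obtain ⟨C, hC, s, hs, hCs⟩ := hz.exists_ne
  have h1 := key k C hC Q hQ
  rw [ev_aeval', hCs, aeval_smul' (homogeneousComponent_isHomogeneous k f)] at h1
  exact (mul_eq_zero.1 h1).resolve_left (pow_ne_zero _ hs)

end main

end Pool.Agent.K1H82.KM
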