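import Mathlib

/-!
# Left ideals of a semisimple algebra stable under a finite group and under the fixed ring
-/

set_option autoImplicit false
set_option linter.unusedSectionVars false

namespace Pool.Agent.K1H82.KM

section alg

variable {S : Type} [Ring S] [Algebra ℚ S]

lemma exists_idem [IsSemisimpleRing S] (I : Ideal S) : ∃ ε ∈ I, ∀ x ∈ I, x * ε = x := by
  obtain ⟨J, hJ⟩ := exists_isCompl I
  have h1 : (1 : S) ∈ I ⊔ J := by
    rw [hJ.sup_eq_top]
    trivial
  obtain ⟨ε, hε, δ, hδ, h⟩ := Submodule.mem_sup.1 h1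
  refine ⟨ε, hε, fun x hx => ?_⟩
  have h2 : x * δ ∈ J := J.mul_mem_left x hδ
  have h3 : x - x * ε ∈ I := I.sub_mem hx (I.mul_mem_left x hε)
  have h4 : x - x * ε = x * δ := by
    have : x = x * (ε + δ) := by rw [h, mul_one]
    rw [mul_add] at this
    nth_rewrite 1 [this]
    abel
  rw [h4] at h3
  have h5 : x * δ ∈ I ⊓ J := ⟨h3, h2⟩
  rw [hJ.inf_eq_bot] at h5
  have h6 : x * δ = 0 := h5
  rw [← h4, sub_eq_zero] at h6
  exact h6.symm

lemma qsmul_mem (I : Ideal S) (c : ℚ) {x : S} (hx : x ∈ I) : c • x ∈ I := by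
  rw [Algebra.smul_def]
  exact I.mul_mem_left _ hx

variable (H : Subgroup (RingAut S))

/-- the average -/
noncomputable def av [Fintype H] (s : S) : S :=
  (Fintype.card H : ℚ)⁻¹ • ∑ h : H, (h : RingAut S) s

lemma qsmul_map (h : RingAut S) (c : ℚ) (x : S) : h (c • x) = c • h x := map_rat_smul h c x

lemma av_fix [Fintype H] (s : S) (h : RingAut S) (hh : h ∈ H) : h (av H s) = av H s := by
  unfold av
  rw [qsmul_map, map_sum]
  congr 1
  refine Fintype.sum_equiv (Equiv.mulLeft (⟨h, hh⟩ : H)) _ _ (fun x => ?_)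
  rfl

lemma av_mem [Fintype H] {I : Ideal S} (hI : ∀ h ∈ H, ∀ x ∈ I, (h : RingAut S) x ∈ I) {s : S}
    (hs : s ∈ I) : av H s ∈ I := by
  unfold av
  exact qsmul_mem I _ (I.sum_mem (fun h _ => hI h.1 h.2 _ hs))

lemma av_of_fix [Fintype H] {s : S} (hs : ∀ h ∈ H, (h : RingAut S) s = s) : av H s = s := by
  unfold av
  rw [Finset.sum_congr rfl (fun h _ => hs h.1 h.2), Finset.sum_const, Finset.card_univ,
    ← Nat.cast_smul_eq_nsmul ℚ, smul_smul, inv_mul_cancel₀, one_smul]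
  exact_mod_cast Fintype.card_pos.ne'

lemma av_mul [Fintype H] (s : S) {c : S} (hc : ∀ h ∈ H, (h : RingAut S) c = c) :
    av H (s * c) = av H s * c := by
  unfold av
  rw [smul_mul_assoc, Finset.sum_mul]
  congr 1
  refine Finset.sum_congr rfl (fun h _ => ?_)
  rw [map_mul, hc h.1 h.2]

lemma exists_idem_fix [IsSemisimpleRing S] [Fintype H] (I : Ideal S)
    (hI : ∀ h ∈ H, ∀ x ∈ I, (h : RingAut S) x ∈ I) :
    ∃ ε ∈ I, (∀ h ∈ H, (h : RingAut S) ε = ε) ∧ ∀ x ∈ I, x * ε = x := by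
  obtain ⟨ε, hε, h1⟩ := exists_idem I
  refine ⟨av H ε, av_mem H hI hε, fun h hh => av_fix H ε h hh, fun x hx => ?_⟩
  unfold av
  rw [mul_smul_comm, Finset.mul_sum]
  have h2 : ∀ h : H, x * (h : RingAut S) ε = x := by
    intro h
    have h3 := h1 _ (hI (h.1)⁻¹ (H.inv_mem h.2) x hx)
    have h4 := congrArg (h : RingAut S) h3
    rw [map_mul] at h4
    have h6 : (h : RingAut S) ((h.1)⁻¹ x) = x := by
      change (h.1 * (h.1)⁻¹) x = x
      rw [mul_inv_cancel]
      rfl
    rwa [h6] at h4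
  rw [Finset.sum_congr rfl (fun h _ => h2 h), Finset.sum_const, Finset.card_univ,
    ← Nat.cast_smul_eq_nsmul ℚ, smul_smul, inv_mul_cancel₀, one_smul]
  exact_mod_cast Fintype.card_pos.ne'

/-- the ring of invariants -/
def fixB : Subalgebra ℚ S where
  carrier := {s | ∀ h ∈ H, (h : RingAut S) s = s}
  mul_mem' := by
    intro a b ha hb h hh
    rw [map_mul, ha h hh, hb h hh]
  add_mem' := by
    intro a b ha hb h hh
    rw [map_add, ha h hh, hb h hh]
  algebraMap_mem' := by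
    intro r h hh
    rw [Algebra.algebraMap_eq_smul_one, qsmul_map, map_one]

lemma mem_fixB {s : S} : s ∈ fixB H ↔ ∀ h ∈ H, (h : RingAut S) s = s := Iff.rfl

lemma idem_central [IsSemisimpleRing S] [Fintype H] (I : Ideal S)
    (hI2 : ∀ x ∈ I, ∀ b ∈ fixB H, x * b ∈ I) {ε : S} (hε : ε ∈ I) (hεB : ε ∈ fixB H)
    (hε1 : ∀ x ∈ I, x * ε = x) {b : S} (hb : b ∈ fixB H) : ε * b = b * ε := by
  have e1 : ∀ b ∈ fixB H, ε * b * ε = ε * b := fun b hb => hε1 _ (hI2 ε hε b hb)
  have hεε : ε * ε = ε := hε1 ε hε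
  set c : S := b * ε - ε * b * ε with hc
  have hcB : c ∈ fixB H :=
    (fixB H).sub_mem ((fixB H).mul_mem hb hεB) ((fixB H).mul_mem ((fixB H).mul_mem hεB hb) hεB)
  set J : Ideal S := Ideal.span {c} with hJ
  have hJs : ∀ h ∈ H, ∀ x ∈ J, (h : RingAut S) x ∈ J := by
    intro h hh x hx
    obtain ⟨s, rfl⟩ := Ideal.mem_span_singleton'.1 hx
    rw [map_mul, hcB h hh]
    exact Ideal.mem_span_singleton'.2 ⟨_, rfl⟩
  obtain ⟨δ, hδ, hδB, hδ1⟩ := exists_idem_fix H J hJs
  obtain ⟨s, hs⟩ := Ideal.mem_span_singleton'.1 hδ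
  have h1 : δ = av H s * c := by
    rw [← av_mul H s hcB, hs, av_of_fix H hδB]
  have hs' : av H s ∈ fixB H := fun h hh => av_fix H s h hh
  have h2 : c * δ = c := hδ1 c (Ideal.mem_span_singleton_self c)
  have h3 : c * ε = c := by
    rw [hc, sub_mul, mul_assoc, mul_assoc (ε * b), hεε]
  have h4 : ε * c = 0 := by
    rw [hc, mul_sub, ← mul_assoc, ← mul_assoc, ← mul_assoc, hεε, sub_self]
  have h5 : c = 0 := by
    rw [← h2, h1]
    calc c * (av H s * c) = c * ε * (av H s * c) := by rw [h3]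
      _ = c * (ε * av H s) * c := by simp only [mul_assoc]
      _ = c * (ε * av H s * ε) * c := by rw [e1 _ hs']
      _ = c * (ε * av H s) * (ε * c) := by simp only [mul_assoc]
      _ = 0 := by rw [h4, mul_zero]
  rw [hc, sub_eq_zero, e1 b hb] at h5
  exact h5.symm

lemma fin_idem (C : Type) [CommRing C] [Algebra ℚ C] [Module.Finite ℚ C] :
    {e : C | IsIdempotentElem e}.Finite := by
  have : IsArtinianRing C := IsArtinianRing.of_finite ℚ C
  have h1 : Finite (TopologicalSpace.Clopens (PrimeSpectrum C)) :=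
    Finite.of_injective (fun U : TopologicalSpace.Clopens (PrimeSpectrum C) =>
      (U : Set (PrimeSpectrum C))) SetLike.coe_injective
  have h2 : Finite {e : C // IsIdempotentElem e} :=
    Finite.of_equiv _ (PrimeSpectrum.isIdempotentElemEquivClopens (R := C)).toEquiv.symm
  have h3 : Finite ({e : C | IsIdempotentElem e} : Set C) := h2
  exact Set.toFinite _

theorem fin_ideals [IsSemisimpleRing S] [Module.Finite ℚ S] [Finite H] :
    {I : Ideal S | (∀ h ∈ H, ∀ x ∈ I, (h : RingAut S) x ∈ I) ∧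
      ∀ x ∈ I, ∀ b ∈ fixB H, x * b ∈ I}.Finite := by
  let _ := Fintype.ofFinite H
  have hfin : {e : Subalgebra.center ℚ (fixB H) | IsIdempotentElem e}.Finite := by
    have h1 : Module.Finite ℚ (fixB H) := inferInstance
    have h2 : Module.Finite ℚ (Subalgebra.center ℚ (fixB H)) := inferInstance
    exact fin_idem _
  have hfin2 : {s : S | ∃ e : Subalgebra.center ℚ (fixB H), IsIdempotentElem e ∧
      ((e : fixB H) : S) = s}.Finite := by
    refine (hfin.image (fun e : Subalgebra.center ℚ (fixB H) => ((e : fixB H) : S))).subset ?_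
    rintro s ⟨e, he, rfl⟩
    exact ⟨e, he, rfl⟩
  have hfin3 : {I : Ideal S | ∃ ε : S, (∃ e : Subalgebra.center ℚ (fixB H),
      IsIdempotentElem e ∧ ((e : fixB H) : S) = ε) ∧ ∀ x, x ∈ I ↔ x * ε = x}.Finite := by
    refine (hfin2.biUnion (t := fun ε => {I : Ideal S | ∀ x, x ∈ I ↔ x * ε = x})
      (fun ε _ => Set.Subsingleton.finite ?_)).subset ?_
    · intro I hI J hJ
      ext x
      rw [hI x, hJ x]
    · rintro I ⟨ε, hε, hI⟩
      exact Set.mem_biUnion (x := ε) hε hI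
  refine hfin3.subset ?_
  rintro I ⟨hI1, hI2⟩
  obtain ⟨ε, hε, hεB, hε1⟩ := exists_idem_fix H I hI1
  refine ⟨ε, ⟨⟨⟨ε, hεB⟩, ?_⟩, ?_, rfl⟩, fun x => ⟨hε1 x, fun h => ?_⟩⟩
  · rw [Subalgebra.mem_center_iff]
    rintro ⟨b, hb⟩
    apply Subtype.ext
    exact (idem_central H I hI2 hε hεB hε1 hb).symm
  · apply Subtype.ext
    apply Subtype.ext
    exact hε1 ε hε
  · rw [← h]
    exact I.mul_mem_left x hε

end alg

end Pool.Agent.K1H82.KM
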