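import Pool.Agent.K1H82.KM.Top

/-!
# The closure of the multiples of a point near zero
-/

set_option autoImplicit false
set_option linter.unusedSectionVars false

open MvPolynomial Pool.Agent.TH954.X Filter Topology

namespace Pool.Agent.K1H82.KM

section spec

variable {K : Type} [Field K] {n : ℕ} {ι : Type} [Fintype ι] [DecidableEq ι]

/-- the form in the group `i` obtained by specialising the other groups -/
noncomputable def spec {F : Type} [Field F] [Algebra K F] (i : ι) (v : ι → Fin n → F)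
    (Φ : MvPolynomial (ι × Fin n) K) : MvPolynomial (Fin n) F :=
  aeval (fun p : ι × Fin n => if p.1 = i then X p.2 else C (v p.1 p.2)) Φ

lemma spec_hom {F : Type} [Field F] [Algebra K F] (i : ι) (v : ι → Fin n → F)
    {Φ : MvPolynomial (ι × Fin n) K} {τ : ι → ℕ} (hΦ : MH τ Φ) :
    (spec i v Φ).IsHomogeneous (τ i) := by
  unfold spec
  rw [aeval_def, eval₂_eq']
  refine IsHomogeneous.sum _ _ _ (fun m hm => ?_)
  have h1 : (∏ p : ι × Fin n, (if p.1 = i then (X p.2 : MvPolynomial (Fin n) F)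
      else C (v p.1 p.2)) ^ m p).IsHomogeneous (∑ p : ι × Fin n, (if p.1 = i then m p else 0)) := by
    refine IsHomogeneous.prod _ _ _ (fun p _ => ?_)
    split_ifs with h
    · exact isHomogeneous_X_pow _ _
    · rw [← C_pow]
      exact isHomogeneous_C _ _
  have h2 : ∑ p : ι × Fin n, (if p.1 = i then m p else 0) = τ i := by
    rw [Fintype.sum_prod_type, Finset.sum_eq_single i]
    · simp only [if_true]
      exact hΦ m hm i
    · intro j _ hj
      simp [hj]
    · simp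
  rw [h2] at h1
  have h3 : algebraMap K (MvPolynomial (Fin n) F) (coeff m Φ) =
      C (algebraMap K F (coeff m Φ)) := rfl
  rw [h3]
  exact h1.C_mul _

lemma spec_eval {F : Type} [Field F] [Algebra K F] (i : ι) (v : ι → Fin n → F)
    (Φ : MvPolynomial (ι × Fin n) K) (x : Fin n → F) :
    eval x (spec i v Φ) = ev Φ (fun j => if j = i then x else v j) := by
  unfold spec ev
  have h := MvPolynomial.comp_aeval_apply
    (f := fun p : ι × Fin n => if p.1 = i then (X p.2 : MvPolynomial (Fin n) F)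
      else C (v p.1 p.2)) ((aeval x : MvPolynomial (Fin n) F →ₐ[F] F).restrictScalars K) Φ
  have h0 : ∀ p : MvPolynomial (Fin n) F, eval x p = aeval x p := fun p => by
    rw [aeval_eq_eval]
  rw [h0]
  refine (h.trans ?_)
  congr 1
  congr 1
  funext p
  by_cases hp : p.1 = i
  · simp [hp]
  · simp [hp]

lemma MH_aeval {F : Type} [Field F] {N : ℕ} {g : MvPolynomial (Fin N) F} {δ : ℕ}
    (hg : g.IsHomogeneous δ) {d : ι → ℕ} (C : Fin N → MvPolynomial (ι × Fin n) F)
    (hC : ∀ c, MH d (C c)) : MH (fun j => δ * d j) (aeval C g) := by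
  rw [aeval_def, eval₂_eq']
  refine MH_sum _ _ _ (fun e he => ?_)
  have h1 := MH_prod Finset.univ (fun (p : Fin N) (j : ι) => e p * d j)
    (fun p => C p ^ e p) (fun p _ => MH_pow (hC p) (e p))
  have h2 := MH_mul (MH_C (ι := ι) (n := n) (coeff e g)) h1
  have h4 : ∑ p, e p = δ := by
    have h7 := hg (mem_support_iff.mp he)
    rw [Finsupp.weight_apply, Finsupp.sum_fintype _ _ (by simp)] at h7
    simpa using h7
  have h3 : (fun j : ι => 0 + ∑ p : Fin N, e p * d j) = fun j => δ * d j := by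
    funext j
    rw [zero_add, ← Finset.sum_mul, h4]
  rw [h3] at h2
  exact h2

lemma ev_aeval {F : Type} [Field F] {N : ℕ} (g : MvPolynomial (Fin N) F)
    (C : Fin N → MvPolynomial (ι × Fin n) F) (u : ι → Fin n → F) :
    ev (aeval C g) u = eval (fun c => ev (C c) u) g := by
  unfold ev
  have h := MvPolynomial.comp_aeval_apply (f := C)
    (aeval (fun p : ι × Fin n => u p.1 p.2) : MvPolynomial (ι × Fin n) F →ₐ[F] F) g
  rw [h, aeval_eq_eval]

lemma MH_map {F : Type} [Field F] [Algebra K F] {d : ι → ℕ} {f : MvPolynomial (ι × Fin n) K}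
    (hf : MH d f) : MH d (MvPolynomial.map (algebraMap K F) f) := by
  intro m hm j
  exact hf m (support_map_subset _ _ hm) j

lemma ev_mapF {F : Type} [Field F] [Algebra K F] (f : MvPolynomial (ι × Fin n) K)
    (u : ι → Fin n → F) : ev (MvPolynomial.map (algebraMap K F) f) u = ev f u := by
  unfold ev
  rw [aeval_map_algebraMap]

lemma eval_smul_hom {F : Type} [Field F] {N : ℕ} {g : MvPolynomial (Fin N) F} {δ : ℕ}
    (hg : g.IsHomogeneous δ) (s : F) (v : Fin N → F) : eval (s • v) g = s ^ δ * eval v g := by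
  have h := aeval_smul' (K := F) (F := F) hg s v
  rwa [aeval_eq_eval] at h

end spec

section diff

variable {K : Type} [Field K] {n : ℕ} (A : AbVar K n) {F : Type} [Field F] [Algebra K F]

/-- the forms of bidegree `(2δ, 2δ)` given by the values of `g` at the differences -/
noncomputable def dif (g : MvPolynomial (Fin n) F) (i : Fin n) : MvPolynomial (Fin 2 × Fin n) F :=
  aeval (fun j => MvPolynomial.map (algebraMap K F) (A.Λ i j)) g

lemma dif_MH {g : MvPolynomial (Fin n) F} {δ : ℕ} (hg : g.IsHomogeneous δ) (i : Fin n) :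
    MH (fun _ => δ * 2) (dif A g i) :=
  MH_aeval hg _ (fun j => MH_map (A.Λ_hom i j))

lemma ev_dif {g : MvPolynomial (Fin n) F} {δ : ℕ} (hg : g.IsHomogeneous δ) (P Q : A.Pt F) :
    ∃ s : F, s ≠ 0 ∧ ∀ i, ev (dif A g i) ![P.1, Q.1] =
      (s * (P + Q).1 i) ^ δ * eval (P - Q).1 g := by
  obtain ⟨s, hs, h⟩ := lam_spec A P Q
  refine ⟨s, hs, fun i => ?_⟩
  unfold dif
  rw [ev_aeval]
  have h1 : (fun j => ev (MvPolynomial.map (algebraMap K F) (A.Λ i j)) ![P.1, Q.1]) =
      (s * (P + Q).1 i) • (P - Q).1 := by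
    funext j
    rw [ev_mapF, h, Pi.smul_apply, smul_eq_mul]
    ring
  rw [h1, eval_smul_hom hg]

lemma dif_zero {g : MvPolynomial (Fin n) F} {δ : ℕ} (hg : g.IsHomogeneous δ) {P Q : A.Pt F}
    (h : eval (P - Q).1 g = 0) (i : Fin n) : ev (dif A g i) ![P.1, Q.1] = 0 := by
  obtain ⟨s, -, h1⟩ := ev_dif A hg P Q
  rw [h1, h, mul_zero]

lemma zero_of_dif {g : MvPolynomial (Fin n) F} {δ : ℕ} (hg : g.IsHomogeneous δ) {P Q : A.Pt F}
    (h : ∀ i, ev (dif A g i) ![P.1, Q.1] = 0) : eval (P - Q).1 g = 0 := by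
  obtain ⟨s, hs, h1⟩ := ev_dif A hg P Q
  obtain ⟨i, hi, -⟩ := (P + Q).2.1
  have h2 := h i
  rw [h1, hi, mul_one] at h2
  exact (mul_eq_zero.mp h2).resolve_left (pow_ne_zero _ hs)

/-- the difference forms in the first variable -/
noncomputable def dif0 (g : MvPolynomial (Fin n) F) (Q : A.Pt F) (i : Fin n) :
    MvPolynomial (Fin n) F := spec 0 ![Q.1, Q.1] (dif A g i)

/-- the difference forms in the second variable -/
noncomputable def dif1 (g : MvPolynomial (Fin n) F) (P : A.Pt F) (i : Fin n) :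
    MvPolynomial (Fin n) F := spec 1 ![P.1, P.1] (dif A g i)

lemma dif0_eval (g : MvPolynomial (Fin n) F) (Q : A.Pt F) (i : Fin n) (x : Fin n → F) :
    eval x (dif0 A g Q i) = ev (dif A g i) ![x, Q.1] := by
  unfold dif0
  rw [spec_eval]
  congr 1
  funext j
  fin_cases j <;> simp

lemma dif1_eval (g : MvPolynomial (Fin n) F) (P : A.Pt F) (i : Fin n) (x : Fin n → F) :
    eval x (dif1 A g P i) = ev (dif A g i) ![P.1, x] := by
  unfold dif1
  rw [spec_eval]
  congr 1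
  funext j
  fin_cases j <;> simp

lemma dif0_hom {g : MvPolynomial (Fin n) F} {δ : ℕ} (hg : g.IsHomogeneous δ) (Q : A.Pt F)
    (i : Fin n) : (dif0 A g Q i).IsHomogeneous (δ * 2) :=
  spec_hom 0 _ (dif_MH A hg i)

lemma dif1_hom {g : MvPolynomial (Fin n) F} {δ : ℕ} (hg : g.IsHomogeneous δ) (P : A.Pt F)
    (i : Fin n) : (dif1 A g P i).IsHomogeneous (δ * 2) :=
  spec_hom 1 _ (dif_MH A hg i)

end diff

/-- a basis of neighbourhoods of zero for a group topology on `ℤ` without isolated points -/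
structure IsBas (𝓤 : Set (Set ℤ)) : Prop where
  ne : 𝓤.Nonempty
  zero : ∀ U ∈ 𝓤, (0 : ℤ) ∈ U
  nz : ∀ U ∈ 𝓤, ∃ m ∈ U, m ≠ 0
  sub : ∀ U ∈ 𝓤, ∃ U' ∈ 𝓤, ∀ m ∈ U', ∀ m' ∈ U', m - m' ∈ U
  inter : ∀ U ∈ 𝓤, ∀ U' ∈ 𝓤, ∃ U'' ∈ 𝓤, U'' ⊆ U ∩ U'

section closure

variable {K : Type} [Field K] {n : ℕ} (A : AbVar K n)

/-- the ideal of the polynomials vanishing on the cones over the multiples `m • P`, `m ∈ U` -/
def vanI {F : Type} [Field F] [Algebra K F] (P : A.Pt F) (U : Set ℤ) :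
    Ideal (MvPolynomial (Fin n) F) where
  carrier := {f | ∀ m ∈ U, ∀ a : F, eval (a • (m • P).1) f = 0}
  add_mem' := by
    intro f g hf hg m hm a
    rw [map_add, hf m hm a, hg m hm a, add_zero]
  zero_mem' := by
    intro m _ a
    rw [map_zero]
  smul_mem' := by
    intro c f hf m hm a
    rw [smul_eq_mul, map_mul, hf m hm a, mul_zero]

lemma mem_vanI {F : Type} [Field F] [Algebra K F] (P : A.Pt F) (U : Set ℤ)
    {f : MvPolynomial (Fin n) F} {δ : ℕ} (hf : f.IsHomogeneous δ) :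
    f ∈ vanI A P U ↔ ∀ m ∈ U, eval (m • P).1 f = 0 := by
  constructor
  · intro h m hm
    have := h m hm 1
    rwa [one_smul] at this
  · intro h m hm a
    rw [eval_smul_hom hf, h m hm, mul_zero]

lemma vanI_mono {F : Type} [Field F] [Algebra K F] (P : A.Pt F) {U U' : Set ℤ} (h : U ⊆ U') :
    vanI A P U' ≤ vanI A P U := fun _ hf m hm a => hf m (h hm) a

variable {A} in
/-- The multiples of a point of infinite order near zero are Zariski dense in a geometrically simple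
abelian variety. -/
theorem closure_all (hA : GeomSimple A) (P : A.Pt (AlgebraicClosure K))
    (hP : ∀ m : ℤ, m ≠ 0 → m • P ≠ 0) {𝓤 : Set (Set ℤ)} (h𝓤 : IsBas 𝓤) {U : Set ℤ} (hU : U ∈ 𝓤)
    {g : MvPolynomial (Fin n) (AlgebraicClosure K)} {δ : ℕ} (hg : g.IsHomogeneous δ)
    (hgU : ∀ m ∈ U, eval (m • P).1 g = 0) (Q : A.Pt (AlgebraicClosure K)) :
    eval Q.1 g = 0 := by
  -- a neighbourhood with the largest ideal
  obtain ⟨U0, hU0, hmax⟩ : ∃ U0 ∈ 𝓤, ∀ U ∈ 𝓤, vanI A P U ≤ vanI A P U0 := by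
    have hne : {I | ∃ U ∈ 𝓤, I = vanI A P U}.Nonempty := by
      obtain ⟨U, hU⟩ := h𝓤.ne
      exact ⟨_, U, hU, rfl⟩
    obtain ⟨I, ⟨U0, hU0, rfl⟩, hI⟩ := set_has_maximal_iff_noetherian.2
      (inferInstance : IsNoetherian (MvPolynomial (Fin n) (AlgebraicClosure K))
        (MvPolynomial (Fin n) (AlgebraicClosure K))) _ hne
    refine ⟨U0, hU0, fun U hU => ?_⟩
    obtain ⟨U2, hU2, hU2'⟩ := h𝓤.inter U hU U0 hU0
    have h1 : vanI A P U0 ≤ vanI A P U2 := vanI_mono A P (fun m hm => (hU2' hm).2)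
    have h2 : vanI A P U ≤ vanI A P U2 := vanI_mono A P (fun m hm => (hU2' hm).1)
    have h3 := hI (vanI A P U2) ⟨U2, hU2, rfl⟩
    have h4 : vanI A P U0 = vanI A P U2 := by
      by_contra hne
      exact h3 (lt_of_le_of_ne h1 hne)
    rw [h4]
    exact h2
  obtain ⟨U1, hU1, hsub⟩ := h𝓤.sub U0 hU0
  set S : Set (MvPolynomial (Fin n) (AlgebraicClosure K)) :=
    {f | (∃ d, f.IsHomogeneous d) ∧ f ∈ vanI A P U0} with hS
  -- step 1
  have step1 : ∀ m ∈ U1, ∀ Q : A.Pt (AlgebraicClosure K), (∀ f ∈ S, eval Q.1 f = 0) →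
      ∀ f ∈ S, eval (Q - m • P).1 f = 0 := by
    rintro m hm Q hQ f ⟨⟨d, hd⟩, hf⟩
    refine zero_of_dif A hd (fun i => ?_)
    rw [← dif0_eval]
    refine hQ _ ⟨⟨_, dif0_hom A hd _ i⟩, hmax U1 hU1 ?_⟩
    rw [mem_vanI A P U1 (dif0_hom A hd _ i)]
    intro m' hm'
    rw [dif0_eval]
    refine dif_zero A hd ?_ i
    rw [← sub_smul]
    exact (mem_vanI A P U0 hd).1 hf _ (hsub m' hm' m hm)
  -- step 2
  have step2 : ∀ Q Q' : A.Pt (AlgebraicClosure K), (∀ f ∈ S, eval Q.1 f = 0) →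
      (∀ f ∈ S, eval Q'.1 f = 0) → ∀ f ∈ S, eval (Q - Q').1 f = 0 := by
    rintro Q Q' hQ hQ' f ⟨⟨d, hd⟩, hf⟩
    refine zero_of_dif A hd (fun i => ?_)
    rw [← dif1_eval]
    refine hQ' _ ⟨⟨_, dif1_hom A hd _ i⟩, hmax U1 hU1 ?_⟩
    rw [mem_vanI A P U1 (dif1_hom A hd _ i)]
    intro m hm
    rw [dif1_eval]
    exact dif_zero A hd (step1 m hm Q hQ f ⟨⟨d, hd⟩, hf⟩) i
  have h0 : ∀ f ∈ S, eval (0 : A.Pt (AlgebraicClosure K)).1 f = 0 := by
    rintro f ⟨⟨d, hd⟩, hf⟩
    have := (mem_vanI A P U0 hd).1 hf 0 (h𝓤.zero U0 hU0)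
    rwa [zero_smul] at this
  let H : AddSubgroup (A.Pt (AlgebraicClosure K)) :=
    { carrier := {Q | ∀ f ∈ S, eval Q.1 f = 0}
      zero_mem' := h0
      add_mem' := by
        intro Q Q' hQ hQ'
        have h1 := step2 0 Q' h0 hQ'
        have h2 := step2 Q (0 - Q') hQ h1
        rwa [zero_sub, sub_neg_eq_add] at h2
      neg_mem' := by
        intro Q hQ
        have h1 := step2 0 Q h0 hQ
        rwa [zero_sub] at h1 }
  rcases hA S (fun f hf => hf.1) H (fun Q => Iff.rfl) with hfin | htop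
  · exfalso
    obtain ⟨m, hm, hm0⟩ := h𝓤.nz U0 hU0
    have hmH : m • P ∈ H := by
      rintro f ⟨⟨d, hd⟩, hf⟩
      exact (mem_vanI A P U0 hd).1 hf m hm
    have hinj : Function.Injective (fun k : ℕ => (k : ℤ) • (m • P)) := by
      intro k k' hkk
      by_contra hne
      have h1 : ((k : ℤ) - k') • (m • P) = 0 := by
        rw [sub_smul, sub_eq_zero]
        exact hkk
      rw [smul_smul] at h1
      refine hP _ (mul_ne_zero (sub_ne_zero.2 ?_) hm0) h1
      exact_mod_cast hne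
    refine Set.infinite_range_of_injective hinj (hfin.subset ?_)
    rintro _ ⟨k, rfl⟩
    exact H.zsmul_mem hmH _
  · have hQ : Q ∈ H := by
      rw [htop]
      trivial
    refine hQ g ⟨⟨δ, hg⟩, hmax U hU ?_⟩
    rw [mem_vanI A P U hg]
    exact hgU

variable {A} in
/-- The translated version. -/
theorem closure_trans (hA : GeomSimple A) (P : A.Pt (AlgebraicClosure K))
    (hP : ∀ m : ℤ, m ≠ 0 → m • P ≠ 0) {𝓤 : Set (Set ℤ)} (h𝓤 : IsBas 𝓤) {U : Set ℤ} (hU : U ∈ 𝓤)
    {g : MvPolynomial (Fin n) (AlgebraicClosure K)} {δ : ℕ} (hg : g.IsHomogeneous δ)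
    (hgU : ∀ m ∈ U, eval ((1 + m) • P).1 g = 0) (Q : A.Pt (AlgebraicClosure K)) :
    eval Q.1 g = 0 := by
  obtain ⟨U1, hU1, hsub⟩ := h𝓤.sub U hU
  have h1 : ∀ i, ∀ Q' : A.Pt (AlgebraicClosure K), eval Q'.1 (dif1 A g P i) = 0 := by
    intro i
    refine closure_all hA P hP h𝓤 hU1 (dif1_hom A hg P i) (fun m hm => ?_)
    rw [dif1_eval]
    refine dif_zero A hg ?_ i
    have h2 := hgU _ (hsub 0 (h𝓤.zero U1 hU1) m hm)
    rwa [zero_sub, add_smul, neg_smul, one_smul, ← sub_eq_add_neg] at h2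
  have h3 : eval (P - (P - Q)).1 g = 0 := by
    refine zero_of_dif A hg (fun i => ?_)
    rw [← dif1_eval]
    exact h1 i _
  rwa [sub_sub_cancel] at h3

end closure

section bas

variable {K : Type} [Field K] {n : ℕ} {L E : Type} [NontriviallyNormedField L] [ProperSpace L]
  [Field E] [Algebra L E] [FiniteDimensional L E] [TopologicalSpace E] [IsModuleTopology L E]
  [Algebra K E]

include L in
/-- the neighbourhoods of zero given by the multiples of a point -/
lemma isBas_nr (A : AbVar K n) (P : A.Pt E) :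
    IsBas {U : Set ℤ | ∃ W ∈ 𝓝 (0 : A.Pt E).1, U = {m : ℤ | Nr W (m • P).1}} where
  ne := ⟨_, Set.univ, univ_mem, rfl⟩
  zero := by
    rintro _ ⟨W, hW, rfl⟩
    refine ⟨1, one_ne_zero, ?_⟩
    rw [zero_smul, one_smul]
    exact mem_of_mem_nhds hW
  nz := by
    rintro _ ⟨W, hW, rfl⟩
    obtain ⟨m, hm, h⟩ := exists_mult (L := L) A P hW
    exact ⟨m, h, hm⟩
  sub := by
    rintro _ ⟨W, hW, rfl⟩
    obtain ⟨W1, hW1, W2, hW2, h12⟩ := cont_sub (L := L) A 0 0 (W := W) (by rwa [sub_zero])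
    refine ⟨_, ⟨W1 ∩ W2, inter_mem hW1 hW2, rfl⟩, fun m hm m' hm' => ?_⟩
    have h := h12 (m • P) (m' • P) (Nr.mono hm Set.inter_subset_left)
      (Nr.mono hm' Set.inter_subset_right)
    rw [← sub_smul] at h
    exact h
  inter := by
    rintro _ ⟨W, hW, rfl⟩ _ ⟨W', hW', rfl⟩
    exact ⟨_, ⟨W ∩ W', inter_mem hW hW', rfl⟩, fun m hm =>
      ⟨Nr.mono hm Set.inter_subset_left, Nr.mono hm Set.inter_subset_right⟩⟩

end bas

end Pool.Agent.K1H82.KM
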