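import Pool.Agent.TH954.X.ParR

/-!
# Abelian varieties in projective space, quotients of products, local Zariski closures: definitions
-/

set_option autoImplicit false

open MvPolynomial Pool.Agent.TH954.X

namespace Pool.Agent.K1H82.KM

/-- An abelian variety over `K` in the projective space `ℙ ^ (n - 1)`: homogeneous equations, the
group structures on the sets of points over the extension fields (a point is given by its
coordinates, the first nonzero one being one), and a matrix `Λ` of forms of bidegree `(2, 2)` with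
`Λ i j (P, Q) = s (P + Q)_i (P - Q)_j`, `s ≠ 0`; the points over algebraically closed fields form a
divisible group. (Every abelian variety has such an embedding, given by a power of a symmetric ample
line bundle.) -/
structure AbVar (K : Type) [Field K] (n : ℕ) where
  e : ℕ
  eqn : Fin e → MvPolynomial (Fin n) K
  deg : Fin e → ℕ
  hom : ∀ i, (eqn i).IsHomogeneous (deg i)
  grp : ∀ (F : Type) [Field F] [Algebra K F], AddCommGroup (PtE eqn F)
  Λ : Fin n → Fin n → MvPolynomial (Fin 2 × Fin n) K
  Λ_hom : ∀ i j, MH (fun _ => 2) (Λ i j)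
  Λ_spec : ∀ (F : Type) [Field F] [Algebra K F] (P Q : PtE eqn F), ∃ s : F, s ≠ 0 ∧
    ∀ i j, ev (Λ i j) ![P.1, Q.1] = s * (((grp F).add P Q).1 i * ((grp F).sub P Q).1 j)
  div : ∀ (F : Type) [Field F] [Algebra K F] [IsAlgClosed F] (P : PtE eqn F) (m : ℕ), 0 < m →
    ∃ Q : PtE eqn F, (grp F).nsmul m Q = P

/-- the points of an abelian variety over an extension field -/
abbrev AbVar.Pt {K : Type} [Field K] {n : ℕ} (A : AbVar K n) (F : Type) [Field F] [Algebra K F] :
    Type := PtE A.eqn F

noncomputable instance {K : Type} [Field K] {n : ℕ} (A : AbVar K n) (F : Type) [Field F]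
    [Algebra K F] : AddCommGroup (A.Pt F) := A.grp F

/-- The abelian variety is geometrically simple: every Zariski closed subgroup of the group of the
points over the algebraic closure is finite or everything. -/
def GeomSimple {K : Type} [Field K] {n : ℕ} (A : AbVar K n) : Prop :=
  ∀ S : Set (MvPolynomial (Fin n) (AlgebraicClosure K)), (∀ g ∈ S, ∃ d, g.IsHomogeneous d) →
    ∀ H : AddSubgroup (A.Pt (AlgebraicClosure K)), (∀ P, P ∈ H ↔ ∀ g ∈ S, eval P.1 g = 0) →
      (H : Set (A.Pt (AlgebraicClosure K))).Finite ∨ H = ⊤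

/-- the points over `F` of the product of the abelian varieties `A b` -/
abbrev Pts {K : Type} [Field K] {n r : ℕ} (A : Fin r → AbVar K n) (F : Type) [Field F]
    [Algebra K F] : Type := ∀ b, (A b).Pt F

/-- the coordinates of a point of the product -/
def crds {K : Type} [Field K] {n r : ℕ} {A : Fin r → AbVar K n} {F : Type} [Field F]
    [Algebra K F] (P : Pts A F) : Fin r → Fin n → F := fun b => (P b).1

/-- the tuples of forms in the finite set `Fam` are not all zero at `u`, and their values at `u` are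
multiples of `x` -/
def Val {K : Type} [Field K] {n r N : ℕ} (Fam : Finset (Fin N → MvPolynomial (Fin r × Fin n) K))
    {F : Type} [Field F] [Algebra K F] (u : Fin r → Fin n → F) (x : Fin N → F) : Prop :=
  (∀ C ∈ Fam, ∃ s : F, (fun c => ev (C c) u) = s • x) ∧ ∃ C ∈ Fam, ∃ c, ev (C c) u ≠ 0

/-- A projective variety `X ⊆ ℙ ^ (N - 1)` over `K` which is the quotient of the product of the
abelian varieties `A b` by the group `G`, which acts on the product through group automorphisms of
the factors: homogeneous equations `eqX` of `X`, a map `π` given by the tuples of forms in `Fam` from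
the product onto `X` (`total`, `surj`), whose fibres over the points over the algebraic closure are
the orbits of `G` (`fib`). -/
structure QuotVar {K : Type} [Field K] {n r : ℕ} (A : Fin r → AbVar K n) (N : ℕ) (G : Type)
    [Group G] where
  eqX : Set (MvPolynomial (Fin N) K)
  homX : ∀ g ∈ eqX, ∃ d, g.IsHomogeneous d
  Fam : Finset (Fin N → MvPolynomial (Fin r × Fin n) K)
  d : Fin r → ℕ
  Fam_hom : ∀ C ∈ Fam, ∀ c, MH d (C c)
  act : ∀ b, G →* AddMonoid.End ((A b).Pt (AlgebraicClosure K))
  total : ∀ P : Pts A (AlgebraicClosure K), ∃ x : Fin N → AlgebraicClosure K, x ≠ 0 ∧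
    (∀ g ∈ eqX, aeval x g = 0) ∧ Val Fam (crds P) x
  surj : ∀ x : Fin N → AlgebraicClosure K, x ≠ 0 → (∀ g ∈ eqX, aeval x g = 0) →
    ∃ P : Pts A (AlgebraicClosure K), Val Fam (crds P) x
  fib : ∀ (P Q : Pts A (AlgebraicClosure K)) (x : Fin N → AlgebraicClosure K),
    Val Fam (crds P) x → (Val Fam (crds Q) x ↔ ∃ g : G, Q = fun b => act b g (P b))

/-- The ideal of the local Zariski closure `Z_x` of the `K`-rational points of `X` at the point `x`
over `L`: the polynomials which vanish at all the multiples of the (vectors `y` of the)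
`K`-rational points of `X` in some neighbourhood `U` of `x`. -/
def LocalIdeal {K : Type} [Field K] {N : ℕ} (eqX : Set (MvPolynomial (Fin N) K)) {L : Type}
    [NormedField L] (σ : K →+* L) (x : Fin N → L) : Set (MvPolynomial (Fin N) K) :=
  {f | ∃ U ∈ nhds x, ∀ y : Fin N → K, y ≠ 0 → (∀ g ∈ eqX, eval y g = 0) →
    (∃ c : L, c ≠ 0 ∧ (fun i => c * σ (y i)) ∈ U) → ∀ a : K, eval (a • y) f = 0}

/-- the ideals of the local Zariski closures at all the points of `X` over `L` -/
def LocalIdeals {K : Type} [Field K] {N : ℕ} (eqX : Set (MvPolynomial (Fin N) K)) {L : Type}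
    [NormedField L] (σ : K →+* L) : Set (Set (MvPolynomial (Fin N) K)) :=
  {J | ∃ x : Fin N → L, x ≠ 0 ∧ (∀ g ∈ eqX, eval₂ σ x g = 0) ∧ J = LocalIdeal eqX σ x}

section api

variable {K : Type} [Field K] {n : ℕ}

lemma normed_unique {F : Type} [Field F] {m : ℕ} {v w : Fin m → F} (hv : Normed v) (hw : Normed w)
    {c : F} (h : v = c • w) : v = w := by
  obtain ⟨i, hi, hi'⟩ := hv
  obtain ⟨k, hk, hk'⟩ := hw
  have h1 : ∀ j, v j = c * w j := fun j => by rw [h]; rfl
  rcases lt_trichotomy i k with hik | hik | hik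
  · exfalso
    have h2 := h1 i
    rw [hi, hk' i hik, mul_zero] at h2
    exact one_ne_zero h2
  · subst hik
    have h2 := h1 i
    rw [hi, hk, mul_one] at h2
    rw [h, ← h2, one_smul]
  · exfalso
    have h2 := h1 k
    rw [hi' k hik, hk, mul_one] at h2
    have h3 := h1 i
    rw [← h2, zero_mul, hi] at h3
    exact one_ne_zero h3

lemma ev_map {ι : Type} {F F' : Type} [Field F] [Field F'] [Algebra K F] [Algebra K F']
    (φ : F →ₐ[K] F') (f : MvPolynomial (ι × Fin n) K) (u : ι → Fin n → F) :
    ev f (fun j c => φ (u j c)) = φ (ev f u) := by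
  unfold ev
  rw [MvPolynomial.comp_aeval_apply]

/-- the coordinates mapped to a larger field -/
def mapV {F F' : Type} [Field F] [Field F'] [Algebra K F] [Algebra K F'] {m : ℕ}
    (φ : F →ₐ[K] F') (v : Fin m → F) : Fin m → F' := fun c => φ (v c)

lemma Normed.mapV {F F' : Type} [Field F] [Field F'] [Algebra K F] [Algebra K F'] {m : ℕ}
    (φ : F →ₐ[K] F') {v : Fin m → F} (h : Normed v) : Normed (mapV φ v) := by
  obtain ⟨i, hi, hj⟩ := h
  exact ⟨i, by simp only [KM.mapV, hi, map_one], fun j hj' => by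
    simp only [KM.mapV, hj j hj', map_zero]⟩

/-- the map on points -/
def mapPt (A : AbVar K n) {F F' : Type} [Field F] [Field F'] [Algebra K F] [Algebra K F']
    (φ : F →ₐ[K] F') (P : A.Pt F) : A.Pt F' :=
  ⟨mapV φ P.1, Normed.mapV φ P.2.1, fun i => by
    have : aeval (mapV φ P.1) (A.eqn i) = φ (aeval P.1 (A.eqn i)) := by
      rw [MvPolynomial.comp_aeval_apply]
      rfl
    rw [this, P.2.2 i, map_zero]⟩

@[simp] lemma mapPt_val (A : AbVar K n) {F F' : Type} [Field F] [Field F'] [Algebra K F]
    [Algebra K F'] (φ : F →ₐ[K] F') (P : A.Pt F) : (mapPt A φ P).1 = mapV φ P.1 := rfl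

lemma mapPt_inj (A : AbVar K n) {F F' : Type} [Field F] [Field F'] [Algebra K F]
    [Algebra K F'] (φ : F →ₐ[K] F') : Function.Injective (mapPt A φ) := by
  intro P Q h
  apply Subtype.ext
  funext c
  have := congrFun (congrArg Subtype.val h) c
  exact φ.toRingHom.injective this

lemma lam_spec (A : AbVar K n) {F : Type} [Field F] [Algebra K F] (P Q : A.Pt F) : ∃ s : F, s ≠ 0 ∧
    ∀ i j, ev (A.Λ i j) ![P.1, Q.1] = s * ((P + Q).1 i * (P - Q).1 j) := A.Λ_spec F P Q

lemma vec2_map {F F' : Type} [Field F] [Field F'] [Algebra K F] [Algebra K F'] {m : ℕ}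
    (φ : F →ₐ[K] F') (v w : Fin m → F) :
    (![mapV φ v, mapV φ w] : Fin 2 → Fin m → F') = fun j c => φ ((![v, w] : Fin 2 → Fin m → F) j c) := by
  funext j
  fin_cases j <;> rfl

lemma map_add_sub (A : AbVar K n) {F F' : Type} [Field F] [Field F'] [Algebra K F]
    [Algebra K F'] (φ : F →ₐ[K] F') (P Q : A.Pt F) :
    mapPt A φ (P + Q) = mapPt A φ P + mapPt A φ Q ∧
      mapPt A φ (P - Q) = mapPt A φ P - mapPt A φ Q := by
  obtain ⟨s, hs, h⟩ := lam_spec A P Q
  obtain ⟨s', hs', h'⟩ := lam_spec A (mapPt A φ P) (mapPt A φ Q)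
  have key : ∀ i j, s' * ((mapPt A φ P + mapPt A φ Q).1 i * (mapPt A φ P - mapPt A φ Q).1 j) =
      φ s * (φ ((P + Q).1 i) * φ ((P - Q).1 j)) := by
    intro i j
    rw [← h', mapPt_val, mapPt_val, vec2_map, ev_map, h, map_mul, map_mul]
  have hs1 : φ s ≠ 0 := (map_ne_zero φ).2 hs
  constructor
  · apply Subtype.ext
    obtain ⟨j, hj, -⟩ := (P - Q).2.1
    refine normed_unique (mapPt A φ (P + Q)).2.1 (mapPt A φ P + mapPt A φ Q).2.1
      (c := (φ s)⁻¹ * (s' * (mapPt A φ P - mapPt A φ Q).1 j)) ?_
    funext i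
    have h1 := key i j
    rw [hj, map_one, mul_one] at h1
    rw [Pi.smul_apply, smul_eq_mul, mapPt_val]
    change φ ((P + Q).1 i) = _
    rw [mul_assoc, eq_inv_mul_iff_mul_eq₀ hs1, ← h1]
    ring
  · apply Subtype.ext
    obtain ⟨i, hi, -⟩ := (P + Q).2.1
    refine normed_unique (mapPt A φ (P - Q)).2.1 (mapPt A φ P - mapPt A φ Q).2.1
      (c := (φ s)⁻¹ * (s' * (mapPt A φ P + mapPt A φ Q).1 i)) ?_
    funext j
    have h1 := key i j
    rw [hi, map_one, one_mul] at h1
    rw [Pi.smul_apply, smul_eq_mul, mapPt_val]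
    change φ ((P - Q).1 j) = _
    rw [mul_assoc, eq_inv_mul_iff_mul_eq₀ hs1, ← h1]
    ring

/-- the map on points as a homomorphism of groups -/
def mapH (A : AbVar K n) {F F' : Type} [Field F] [Field F'] [Algebra K F] [Algebra K F']
    (φ : F →ₐ[K] F') : A.Pt F →+ A.Pt F' where
  toFun := mapPt A φ
  map_zero' := by
    have h := (map_add_sub A φ 0 0).1
    rw [add_zero] at h
    exact left_eq_add.1 h
  map_add' P Q := (map_add_sub A φ P Q).1

@[simp] lemma mapH_apply (A : AbVar K n) {F F' : Type} [Field F] [Field F'] [Algebra K F]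
    [Algebra K F'] (φ : F →ₐ[K] F') (P : A.Pt F) : mapH A φ P = mapPt A φ P := rfl

/-- the abelian variety with the ring `ℤ` of endomorphisms -/
noncomputable def AbVar.toAbR (A : AbVar K n) : AbR K n where
  e := A.e
  eqn := A.eqn
  deg := A.deg
  hom := A.hom
  grp := A.grp
  Λ := A.Λ
  Λ_hom := A.Λ_hom
  Λ_spec := A.Λ_spec
  div := A.div
  dim := 0
  z0 := ((0 : A.Pt K).2.1).choose
  z := Fin.elim0
  R := ℤ
  ρ := 1
  ρ_pos := Nat.one_pos
  basis := Module.Basis.singleton (Fin 1) ℤ
  act F _ _ := letI := A.grp F; Int.castRingHom (AddMonoid.End (PtE A.eqn F))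
  act_forms := by
    intro a
    refine ⟨1, {fun c => X c}, ?_, ?_⟩
    · intro C hC c
      rw [Finset.mem_singleton] at hC
      rw [hC]
      exact isHomogeneous_X _ _
    · intro F _ _ P
      constructor
      · intro C hC
        rw [Finset.mem_singleton] at hC
        rw [hC]
        refine ⟨1, ?_⟩
        rw [one_smul, Module.Basis.singleton_apply, map_one]
        funext c
        rw [aeval_X]
        rfl
      · obtain ⟨i, hi, -⟩ := P.2.1
        refine ⟨_, Finset.mem_singleton_self _, i, ?_⟩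
        rw [aeval_X, hi]
        exact one_ne_zero

end api

end Pool.Agent.K1H82.KM
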