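import Pool.Agent.K1H82.KM.Loc

/-!
# Finiteness of the set of the local ideals
-/

set_option autoImplicit false
set_option linter.unusedSectionVars false

open MvPolynomial Pool.Agent.TH954.X Filter Topology

namespace Pool.Agent.K1H82.KM

variable {K : Type} [Field K] {n r N : ℕ} {A : Fin r → AbVar K n} {G : Type} [Group G]

open Classical in
/-- the components in `J` replaced by zero -/
noncomputable def zro (P : Pts A (AlgebraicClosure K)) (J : Set (Fin r)) :
    Pts A (AlgebraicClosure K) := fun b => if b ∈ J then 0 else P b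

lemma Zset_sub (X : QuotVar A N G) (P P' : Pts A (AlgebraicClosure K)) (J : Set (Fin r))
    {z : Fin N → AlgebraicClosure K} (h : Val X.Fam (crds (zro P J)) z)
    (h' : Val X.Fam (crds (zro P' J)) z) : Zset X P J ⊆ Zset X P' J := by
  obtain ⟨g, hg⟩ := (X.fib _ _ _ h).1 h'
  rintro z' ⟨Q, hQ, hz'⟩
  refine ⟨fun b => X.act b g (Q b), fun b hb => ?_, (X.fib _ _ _ hz').2 ⟨g, rfl⟩⟩
  have h1 := congrFun hg b
  simp only [zro, if_neg hb] at h1
  change X.act b g (Q b) = P' b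
  rw [hQ b hb, h1]

lemma ZI_eq (X : QuotVar A N G) (P P' : Pts A (AlgebraicClosure K)) (J : Set (Fin r))
    {z : Fin N → AlgebraicClosure K} (h : Val X.Fam (crds (zro P J)) z)
    (h' : Val X.Fam (crds (zro P' J)) z) : ZI X P J = ZI X P' J := by
  ext f
  exact ⟨fun hf z hz => hf z (Zset_sub X P' P J h' h hz),
    fun hf z hz => hf z (Zset_sub X P P' J h h' hz)⟩

/-- the ideals which occur -/
def Typ (X : QuotVar A N G) : Set (Set (MvPolynomial (Fin N) K)) :=
  {I | ∃ (P : Pts A (AlgebraicClosure K)) (y : Fin N → K), Val X.Fam (crds P) (up y) ∧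
    I = ZI X P (NT P)}

theorem typ_fin [NumberField K] (X : QuotVar A N G) : (Typ X).Finite := by
  classical
  have h1 : ∀ (J : Set (Fin r)) (y0 : Fin N → K), ({I | ∃ (P : Pts A (AlgebraicClosure K)),
      Val X.Fam (crds (zro P J)) (up y0) ∧ I = ZI X P J} :
        Set (Set (MvPolynomial (Fin N) K))).Finite := by
    intro J y0
    refine Set.Subsingleton.finite ?_
    rintro _ ⟨P, hP, rfl⟩ _ ⟨P', hP', rfl⟩
    exact ZI_eq X P P' J hP hP'
  refine (Set.Finite.biUnion (Set.toFinite (Set.univ : Set (Set (Fin r)))) (fun J _ =>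
    Set.Finite.biUnion (tor_fin X) (fun y0 _ => h1 J y0))).subset ?_
  rintro _ ⟨P, y, hy, rfl⟩
  obtain ⟨y0, hn, -, hv⟩ := rat X P y hy (fun b => if b ∈ NT P then 0 else 1)
  have h2 : (fun b => (if b ∈ NT P then (0 : ℤ) else 1) • P b) = zro P (NT P) := by
    funext b
    unfold zro
    split_ifs
    · rw [zero_smul]
    · rw [one_smul]
  rw [h2] at hv
  refine Set.mem_biUnion (Set.mem_univ (NT P)) (Set.mem_biUnion (x := y0) ?_ ⟨P, hv, rfl⟩)
  refine ⟨hn, zro P (NT P), fun b => ?_, hv⟩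
  by_cases hb : b ∈ NT P
  · exact ⟨1, one_ne_zero, by simp [zro, hb]⟩
  · have h3 := hb
    simp only [NT, Set.mem_ofPred_eq, not_forall, not_not] at h3
    obtain ⟨m, hm, hm'⟩ := h3
    exact ⟨m, hm, by simp only [zro, if_neg hb]; exact hm'⟩

theorem main [NumberField K] (hA : ∀ b, GeomSimple (A b)) (X : QuotVar A N G) {L : Type}
    [NontriviallyNormedField L] [CompleteSpace L] (σ : K →+* L) (hσ : DenseRange σ) :
    (LocalIdeals X.eqX σ).Finite := by
  refine (((typ_fin X).powerset).image (fun S => {f | ∀ I ∈ S, f ∈ I})).subset ?_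
  rintro _ ⟨x, hx0, hx, rfl⟩
  -- the types which occur in every neighbourhood
  set S : Set (Set (MvPolynomial (Fin N) K)) := {I | I ∈ Typ X ∧ ∀ U ∈ 𝓝 x,
    ∃ (P : Pts A (AlgebraicClosure K)) (y : Fin N → K), Val X.Fam (crds P) (up y) ∧
      (∃ c : L, c ≠ 0 ∧ (fun i => c * σ (y i)) ∈ U) ∧ I = ZI X P (NT P)} with hS
  refine ⟨S, fun I hI => hI.1, ?_⟩
  ext f
  constructor
  · intro hf
    have hU : ∀ I ∈ Typ X, ∃ U ∈ 𝓝 x, I ∉ S →
        ¬ ∃ (P : Pts A (AlgebraicClosure K)) (y : Fin N → K), Val X.Fam (crds P) (up y) ∧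
          (∃ c : L, c ≠ 0 ∧ (fun i => c * σ (y i)) ∈ U) ∧ I = ZI X P (NT P) := by
      intro I hI
      by_cases hIS : I ∈ S
      · exact ⟨Set.univ, univ_mem, fun h => absurd hIS h⟩
      · have h1 : ¬ ∀ U ∈ 𝓝 x, ∃ (P : Pts A (AlgebraicClosure K)) (y : Fin N → K),
            Val X.Fam (crds P) (up y) ∧ (∃ c : L, c ≠ 0 ∧ (fun i => c * σ (y i)) ∈ U) ∧
              I = ZI X P (NT P) := fun h => hIS ⟨hI, h⟩
        simp only [not_forall] at h1
        obtain ⟨U, hU, hU'⟩ := h1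
        exact ⟨U, hU, fun _ => hU'⟩
    choose! U hU hUI using hU
    refine ⟨⋂ I ∈ Typ X, U I, (Filter.biInter_mem (typ_fin X)).2 hU, ?_⟩
    intro y hy0 hye hyU a
    obtain ⟨c, hc, hcU⟩ := hyU
    have hup0 : up y ≠ 0 := by
      intro h0
      apply hy0
      funext i
      have := congrFun h0 i
      exact (map_eq_zero_iff _ (algebraMap K (AlgebraicClosure K)).injective).1 this
    obtain ⟨P, hP⟩ := X.surj (up y) hup0 (fun g hg => (eval_up_iff y g).2 (hye g hg))
    have hT : ZI X P (NT P) ∈ Typ X := ⟨P, y, hP, rfl⟩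
    have hIS : ZI X P (NT P) ∈ S := by
      by_contra hIS
      exact hUI _ hT hIS ⟨P, y, hP, ⟨c, hc, Set.mem_iInter₂.1 hcU _ hT⟩, rfl⟩
    have h2 := hf _ hIS (up y) ⟨P, fun b _ => rfl, hP⟩ (algebraMap K (AlgebraicClosure K) a)
    have h3 : algebraMap K (AlgebraicClosure K) a • up y = up (a • y) := by
      funext i
      change _ * algebraMap K (AlgebraicClosure K) (y i) =
        algebraMap K (AlgebraicClosure K) (a * y i)
      rw [map_mul]
    rw [h3] at h2
    exact (eval_up_iff _ _).1 h2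
  · rintro ⟨U, hU, hf⟩ I ⟨hI, hI'⟩
    obtain ⟨V, hVU, hV, hxV⟩ := mem_nhds_iff.1 hU
    have hV0 : IsOpen (V ∩ {v | v ≠ 0}) := hV.inter isOpen_ne
    obtain ⟨P, y, hy, ⟨c, hc, hcV⟩, rfl⟩ := hI' (V ∩ {v | v ≠ 0})
      (hV0.mem_nhds ⟨hxV, hx0⟩)
    exact loc_main hA X σ hσ f hV0 (fun h => h.2 rfl)
      (fun y hy0 hye ⟨c, hc, hcU⟩ a => hf y hy0 hye ⟨c, hc, hVU hcU.1⟩ a) P y hy hcV

end Pool.Agent.K1H82.KM
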