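import Pool.Agent.K1H82.KM.Cls

/-!
# Rationality of the images of the multiples
-/

set_option autoImplicit false
set_option linter.unusedSectionVars false

open MvPolynomial Pool.Agent.TH954.X

namespace Pool.Agent.K1H82.KM

section val

variable {K : Type} [Field K] {n r N : ℕ} {Fam : Finset (Fin N → MvPolynomial (Fin r × Fin n) K)}
  {F : Type} [Field F] [Algebra K F]

lemma Val.ne_zero {u : Fin r → Fin n → F} {x : Fin N → F} (h : Val Fam u x) : x ≠ 0 := by
  obtain ⟨h1, C, hC, c, hc⟩ := h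
  obtain ⟨s, hs⟩ := h1 C hC
  rintro rfl
  apply hc
  have := congrFun hs c
  rw [smul_zero] at this
  exact this

lemma Val.exists_ne {u : Fin r → Fin n → F} {x : Fin N → F} (h : Val Fam u x) :
    ∃ C ∈ Fam, ∃ s : F, s ≠ 0 ∧ (fun c => ev (C c) u) = s • x := by
  obtain ⟨h1, C, hC, c, hc⟩ := h
  obtain ⟨s, hs⟩ := h1 C hC
  refine ⟨C, hC, s, ?_, hs⟩
  rintro rfl
  apply hc
  have := congrFun hs c
  rw [zero_smul] at this
  exact this

lemma Val.unique {u : Fin r → Fin n → F} {x y : Fin N → F} (h : Val Fam u x) (h' : Val Fam u y) :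
    ∃ s : F, s ≠ 0 ∧ y = s • x := by
  obtain ⟨C, hC, s, hs, h1⟩ := h.exists_ne
  obtain ⟨t, ht⟩ := h'.1 C hC
  have h2 : t • y = s • x := ht.symm.trans h1
  have ht0 : t ≠ 0 := by
    rintro rfl
    rw [zero_smul] at h2
    exact (smul_ne_zero hs h.ne_zero) h2.symm
  refine ⟨t⁻¹ * s, mul_ne_zero (inv_ne_zero ht0) hs, ?_⟩
  rw [mul_smul, ← h2, inv_smul_smul₀ ht0]

lemma Val.smul {u : Fin r → Fin n → F} {x : Fin N → F} (h : Val Fam u x) {s : F} (hs : s ≠ 0) :
    Val Fam u (s • x) := by
  refine ⟨fun C hC => ?_, h.2⟩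
  obtain ⟨t, ht⟩ := h.1 C hC
  exact ⟨t * s⁻¹, by rw [ht, smul_smul, mul_assoc, inv_mul_cancel₀ hs, mul_one]⟩

variable {F' : Type} [Field F'] [Algebra K F']

lemma Val.map (φ : F →ₐ[K] F') {u : Fin r → Fin n → F} {x : Fin N → F} (h : Val Fam u x) :
    Val Fam (fun j c => φ (u j c)) (mapV φ x) := by
  constructor
  · intro C hC
    obtain ⟨t, ht⟩ := h.1 C hC
    refine ⟨φ t, ?_⟩
    funext c
    have h1 : ev (C c) u = t * x c := congrFun ht c
    rw [ev_map, h1, map_mul]
    rfl
  · obtain ⟨C, hC, c, hc⟩ := h.2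
    refine ⟨C, hC, c, ?_⟩
    rw [ev_map]
    exact (map_ne_zero φ).2 hc

lemma Val.of_map (φ : F →ₐ[K] F') {u : Fin r → Fin n → F} {x : Fin N → F}
    (h : Val Fam (fun j c => φ (u j c)) (mapV φ x)) : Val Fam u x := by
  constructor
  · intro C hC
    obtain ⟨t, ht⟩ := h.1 C hC
    obtain ⟨c0, hc0⟩ := Function.ne_iff.1 h.ne_zero
    have hx0 : x c0 ≠ 0 := by
      intro h0
      apply hc0
      change φ (x c0) = 0
      rw [h0, map_zero]
    refine ⟨ev (C c0) u / x c0, ?_⟩
    funext c
    apply φ.toRingHom.injective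
    change φ (ev (C c) u) = φ (ev (C c0) u / x c0 * x c)
    have h1 : ∀ c, ev (C c) (fun j c => φ (u j c)) = t * φ (x c) := fun c => congrFun ht c
    rw [map_mul, map_div₀, ← ev_map, ← ev_map, h1, h1, mul_div_assoc, div_self
      ((map_ne_zero φ).2 hx0), mul_one]
  · obtain ⟨C, hC, c, hc⟩ := h.2
    refine ⟨C, hC, c, ?_⟩
    rw [ev_map] at hc
    exact (map_ne_zero φ).1 hc

end val

section rat

variable {K : Type} [Field K] {n r N : ℕ} {A : Fin r → AbVar K n} {G : Type} [Group G]

/-- the vector over the algebraic closure -/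
noncomputable def up (y : Fin N → K) : Fin N → AlgebraicClosure K :=
  fun c => algebraMap K (AlgebraicClosure K) (y c)

lemma eval_up (y : Fin N → K) (g : MvPolynomial (Fin N) K) :
    aeval (up y) g = algebraMap K (AlgebraicClosure K) (eval y g) := by
  have h := MvPolynomial.aeval_algebraMap_apply (A := K) (AlgebraicClosure K) y g
  rw [← aeval_eq_eval]
  exact h

lemma eval_up_iff (y : Fin N → K) (g : MvPolynomial (Fin N) K) :
    aeval (up y) g = 0 ↔ eval y g = 0 := by
  rw [eval_up, map_eq_zero_iff _ (algebraMap K (AlgebraicClosure K)).injective]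

lemma aeval_smul_eq (X : QuotVar A N G) {F : Type} [Field F] [Algebra K F] {x : Fin N → F}
    (h : ∀ g ∈ X.eqX, aeval x g = 0) (s : F) : ∀ g ∈ X.eqX, aeval (s • x) g = 0 := by
  intro g hg
  obtain ⟨d, hd⟩ := X.homX g hg
  rw [aeval_smul' hd, h g hg, mul_zero]

/-- The images of the multiples of a point whose image is rational are rational. -/
theorem rat [CharZero K] (X : QuotVar A N G) (P : Pts A (AlgebraicClosure K)) (y : Fin N → K)
    (hy : Val X.Fam (crds P) (up y)) (m : Fin r → ℤ) :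
    ∃ y' : Fin N → K, Normed y' ∧ (∀ g ∈ X.eqX, eval y' g = 0) ∧
      Val X.Fam (crds (A := A) (fun b => m b • P b)) (up y') := by
  obtain ⟨x, hx0, hxe, hx⟩ := X.total (fun b => m b • P b)
  obtain ⟨s, x1, hs, hx1, rfl⟩ := exists_normed hx0
  have hxe1 : ∀ g ∈ X.eqX, aeval x1 g = 0 := by
    have := aeval_smul_eq X hxe s⁻¹
    rwa [inv_smul_smul₀ hs] at this
  have hv1 : Val X.Fam (crds (A := A) (fun b => m b • P b)) x1 := by
    have := hx.smul (inv_ne_zero hs)
    rwa [inv_smul_smul₀ hs] at this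
  have hfix : ∀ φ : AlgebraicClosure K ≃ₐ[K] AlgebraicClosure K, ∀ c, φ (x1 c) = x1 c := by
    intro φ c
    have h1 : Val X.Fam (crds (fun b => mapPt (A b) φ.toAlgHom (P b))) (up y) := by
      have h2 := hy.map φ.toAlgHom
      have h3 : mapV φ.toAlgHom (up y) = up y := by
        funext c
        change φ (algebraMap K (AlgebraicClosure K) (y c)) = _
        rw [AlgEquiv.commutes]
        rfl
      rw [h3] at h2
      exact h2
    obtain ⟨g, hg⟩ := (X.fib P _ _ hy).1 h1
    have hg' : ∀ b, mapH (A b) φ.toAlgHom (P b) =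
        X.act b g (P b) := fun b => congrFun hg b
    have h4 : Val X.Fam (crds (fun b => mapPt (A b)
        φ.toAlgHom (m b • P b))) x1 := by
      refine (X.fib _ _ _ hv1).2 ⟨g, ?_⟩
      funext b
      change mapH (A b) φ.toAlgHom (m b • P b) =
        X.act b g (m b • P b)
      rw [map_zsmul, hg', map_zsmul]
    have h5 := hv1.map φ.toAlgHom
    obtain ⟨t, -, ht⟩ := h4.unique h5
    have h6 : mapV φ.toAlgHom x1 = x1 :=
      normed_unique (Normed.mapV _ hx1) hx1 ht
    exact congrFun h6 c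
  have hgal : IsGalois K (AlgebraicClosure K) := inferInstance
  have hmem : ∀ c, ∃ z : K, algebraMap K (AlgebraicClosure K) z = x1 c := by
    intro c
    have := (InfiniteGalois.mem_range_algebraMap_iff_fixed (k := K) (K := AlgebraicClosure K)
      (x1 c)).2 (fun φ => hfix φ c)
    exact this
  choose y' hy' using hmem
  have hup : up y' = x1 := funext hy'
  refine ⟨y', ?_, fun g hg => ?_, ?_⟩
  · obtain ⟨i, hi, hj⟩ := hx1
    refine ⟨i, ?_, fun j hji => ?_⟩
    · apply (algebraMap K (AlgebraicClosure K)).injective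
      rw [hy', hi, map_one]
    · apply (algebraMap K (AlgebraicClosure K)).injective
      rw [hy', hj j hji, map_zero]
  · rw [← eval_up_iff, hup]
    exact hxe1 g hg
  · rw [hup]
    exact hv1

end rat

end Pool.Agent.K1H82.KM
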