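import Pool.Agent.K1H82.KM.Defs

/-!
# Points over finite extensions of local fields: continuity and compactness
-/

set_option autoImplicit false
set_option linter.unusedSectionVars false

open MvPolynomial Pool.Agent.TH954.X Filter Topology

namespace Pool.Agent.K1H82.KM

/-- a nonzero multiple of `v` is in `W` -/
def Nr {E : Type} [Field E] {n : ℕ} (W : Set (Fin n → E)) (v : Fin n → E) : Prop :=
  ∃ c : E, c ≠ 0 ∧ c • v ∈ W

lemma Nr.mono {E : Type} [Field E] {n : ℕ} {W W' : Set (Fin n → E)} {v : Fin n → E}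
    (h : Nr W v) (hW : W ⊆ W') : Nr W' v := by
  obtain ⟨c, hc, h⟩ := h
  exact ⟨c, hc, hW h⟩

variable {K : Type} [Field K] {n : ℕ} {L E : Type} [NontriviallyNormedField L] [ProperSpace L]
  [Field E] [Algebra L E] [FiniteDimensional L E] [TopologicalSpace E] [IsModuleTopology L E]
  [Algebra K E]

include L in
variable (L E) in
lemma topring : IsTopologicalRing E := IsModuleTopology.isTopologicalRing L E

variable (L E) in
/-- coordinates -/
noncomputable def eqv (n : ℕ) : (Fin n → E) ≃L[L]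
    (Fin (Module.finrank L (Fin n → E)) → L) :=
  { (Module.finBasis L (Fin n → E)).equivFun with
    continuous_toFun := by
      have := topring L E
      exact IsModuleTopology.continuous_of_linearMap
        (Module.finBasis L (Fin n → E)).equivFun.toLinearMap
    continuous_invFun := by
      have := topring L E
      have : ContinuousSMul L E := IsModuleTopology.toContinuousSMul L E
      exact IsModuleTopology.continuous_of_linearMap
        (Module.finBasis L (Fin n → E)).equivFun.symm.toLinearMap }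

include L in
variable (L E) in
lemma t2V (n : ℕ) : T2Space (Fin n → E) :=
  (eqv L E n).toHomeomorph.symm.t2Space

include L in
variable (L E) in
lemma t2E : T2Space E := by
  have := t2V L E 1
  have h : Continuous fun x : E => (fun _ => x : Fin 1 → E) := by fun_prop
  exact T2Space.of_injective_continuous (f := fun x : E => (fun _ => x : Fin 1 → E))
    (fun x y hxy => congrFun hxy 0) h

include L in
lemma compact_dir {n : ℕ} (v : ℕ → Fin n → E) (hv : ∀ k, v k ≠ 0) :
    ∃ (c : ℕ → E) (φ : ℕ → ℕ) (w : Fin n → E), (∀ k, c k ≠ 0) ∧ StrictMono φ ∧ w ≠ 0 ∧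
      Tendsto (fun k => c (φ k) • v (φ k)) atTop (𝓝 w) := by
  obtain ⟨a, ha⟩ := NormedField.exists_one_lt_norm L
  set e := eqv L E n with he
  have hne : ∀ k, e (v k) ≠ 0 := fun k => by
    rw [Ne, map_eq_zero_iff e e.injective]
    exact hv k
  have hd : ∀ k, ∃ d : L, d ≠ 0 ∧ ‖d • e (v k)‖ ≤ 1 ∧ 1 / ‖a‖ ≤ ‖d • e (v k)‖ := by
    intro k
    obtain ⟨d, hd0, h1, h2, -⟩ := rescale_to_shell ha one_pos (hne k)
    exact ⟨d, hd0, h1.le, h2⟩
  choose d hd0 hd1 hd2 using hd
  have hcp : IsCompact {x : Fin (Module.finrank L (Fin n → E)) → L | ‖x‖ ≤ 1 ∧ 1 / ‖a‖ ≤ ‖x‖} := by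
    refine (isCompact_closedBall (0 : Fin (Module.finrank L (Fin n → E)) → L) 1).of_isClosed_subset
      ?_ ?_
    · exact (isClosed_le continuous_norm continuous_const).inter
        (isClosed_le continuous_const continuous_norm)
    · intro x hx
      rw [mem_closedBall_zero_iff]
      exact hx.1
  obtain ⟨w, hw, φ, hφ, hlim⟩ := hcp.tendsto_subseq (x := fun k => d k • e (v k))
    (fun k => ⟨hd1 k, hd2 k⟩)
  refine ⟨fun k => algebraMap L E (d k), φ, e.symm w, fun k => ?_, hφ, ?_, ?_⟩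
  · exact (map_ne_zero _).2 (hd0 k)
  · rw [Ne, map_eq_zero_iff e.symm e.symm.injective]
    intro h0
    have h1 := hw.2
    rw [h0, norm_zero] at h1
    have : 0 < 1 / ‖a‖ := by positivity
    linarith
  · have h1 := (e.symm.continuous.tendsto w).comp hlim
    have h2 : (fun k => algebraMap L E (d (φ k)) • v (φ k)) =
        (e.symm ∘ (fun k => d k • e (v k)) ∘ φ) := by
      funext k
      simp only [Function.comp]
      rw [map_smul, ContinuousLinearEquiv.symm_apply_apply]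
      funext i
      rw [Pi.smul_apply, Pi.smul_apply, smul_eq_mul, Algebra.smul_def]
    rw [h2]
    exact h1

include L in
lemma cont_ev {ι : Type} (f : MvPolynomial (ι × Fin n) K) :
    Continuous fun u : ι → Fin n → E => ev f u := by
  have := topring L E
  have h : (fun u : ι → Fin n → E => ev f u) =
      fun u => eval (fun p : ι × Fin n => u p.1 p.2) (MvPolynomial.map (algebraMap K E) f) := by
    funext u
    unfold ev
    rw [aeval_def, eval₂_eq_eval_map]
  rw [h]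
  exact (MvPolynomial.continuous_eval _).comp (by fun_prop)

include L in
lemma cont_lam (A : AbVar K n) (i j : Fin n) :
    Continuous fun u : (Fin n → E) × (Fin n → E) => ev (A.Λ i j) ![u.1, u.2] := by
  refine (cont_ev (L := L) (A.Λ i j)).comp ?_
  refine continuous_pi fun k => ?_
  fin_cases k
  · exact continuous_fst
  · exact continuous_snd

lemma ev_lam_smul {F : Type} [Field F] [Algebra K F] (A : AbVar K n) (i j : Fin n) (a b : F)
    (u v : Fin n → F) : ev (A.Λ i j) ![a • u, b • v] = a ^ 2 * b ^ 2 * ev (A.Λ i j) ![u, v] := by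
  have h := ev_smul (A.Λ_hom i j) ![a, b] ![u, v]
  have h1 : (fun k : Fin 2 => (![a, b] : Fin 2 → F) k • (![u, v] : Fin 2 → Fin n → F) k) =
      ![a • u, b • v] := by
    funext k
    fin_cases k <;> rfl
  rw [h1, Fin.prod_univ_two] at h
  exact h

include L in
lemma ne_nhds {n : ℕ} (v : Fin n → E) (i : Fin n) (hi : v i ≠ 0) :
    {x : Fin n → E | x i ≠ 0} ∈ 𝓝 v := by
  have := t2E L E
  exact (isOpen_ne.preimage (continuous_apply i)).mem_nhds hi

include L in
/-- addition is continuous -/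
lemma cont_add (A : AbVar K n) (P Q : A.Pt E) {W : Set (Fin n → E)} (hW : W ∈ 𝓝 (P + Q).1) :
    ∃ W1 ∈ 𝓝 P.1, ∃ W2 ∈ 𝓝 Q.1, ∀ P' Q' : A.Pt E, Nr W1 P'.1 → Nr W2 Q'.1 →
      Nr W (P' + Q').1 := by
  have := topring L E
  obtain ⟨j, hj, -⟩ := (P - Q).2.1
  obtain ⟨i0, hi0, -⟩ := (P + Q).2.1
  obtain ⟨s, hs, h⟩ := lam_spec A P Q
  set G : (Fin n → E) × (Fin n → E) → (Fin n → E) :=
    fun u i => s⁻¹ * ev (A.Λ i j) ![u.1, u.2] with hG
  have hGc : Continuous G := continuous_pi fun i => continuous_const.mul (cont_lam (L := L) A i j)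
  have hG0 : G (P.1, Q.1) = (P + Q).1 := by
    funext i
    simp only [hG]
    rw [h, hj, mul_one, inv_mul_cancel_left₀ hs]
  have hW' : W ∩ {x | x i0 ≠ 0} ∈ 𝓝 (G (P.1, Q.1)) := by
    rw [hG0]
    exact inter_mem hW (ne_nhds (L := L) _ i0 (by rw [hi0]; exact one_ne_zero))
  have h1 := hGc.continuousAt.preimage_mem_nhds hW'
  rw [mem_nhds_prod_iff] at h1
  obtain ⟨W1, hW1, W2, hW2, h12⟩ := h1
  refine ⟨W1, hW1, W2, hW2, ?_⟩
  rintro P' Q' ⟨c, hc, hcP⟩ ⟨c', hc', hcQ⟩
  obtain ⟨s', hs', h'⟩ := lam_spec A P' Q'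
  have h2 : G (c • P'.1, c' • Q'.1) ∈ W ∩ {x | x i0 ≠ 0} := h12 ⟨hcP, hcQ⟩
  have h3 : G (c • P'.1, c' • Q'.1) =
      (s⁻¹ * (c ^ 2 * c' ^ 2 * (s' * (P' - Q').1 j))) • (P' + Q').1 := by
    funext i
    simp only [hG]
    rw [ev_lam_smul, h', Pi.smul_apply, smul_eq_mul]
    ring
  rw [h3] at h2
  refine ⟨_, ?_, h2.1⟩
  intro h0
  have h4 := h2.2
  rw [h0] at h4
  exact h4 (by simp)

include L in
/-- subtraction is continuous -/
lemma cont_sub (A : AbVar K n) (P Q : A.Pt E) {W : Set (Fin n → E)} (hW : W ∈ 𝓝 (P - Q).1) :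
    ∃ W1 ∈ 𝓝 P.1, ∃ W2 ∈ 𝓝 Q.1, ∀ P' Q' : A.Pt E, Nr W1 P'.1 → Nr W2 Q'.1 →
      Nr W (P' - Q').1 := by
  have := topring L E
  obtain ⟨j, hj, -⟩ := (P + Q).2.1
  obtain ⟨i0, hi0, -⟩ := (P - Q).2.1
  obtain ⟨s, hs, h⟩ := lam_spec A P Q
  set G : (Fin n → E) × (Fin n → E) → (Fin n → E) :=
    fun u i => s⁻¹ * ev (A.Λ j i) ![u.1, u.2] with hG
  have hGc : Continuous G := continuous_pi fun i => continuous_const.mul (cont_lam (L := L) A j i)
  have hG0 : G (P.1, Q.1) = (P - Q).1 := by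
    funext i
    simp only [hG]
    rw [h, hj, one_mul, inv_mul_cancel_left₀ hs]
  have hW' : W ∩ {x | x i0 ≠ 0} ∈ 𝓝 (G (P.1, Q.1)) := by
    rw [hG0]
    exact inter_mem hW (ne_nhds (L := L) _ i0 (by rw [hi0]; exact one_ne_zero))
  have h1 := hGc.continuousAt.preimage_mem_nhds hW'
  rw [mem_nhds_prod_iff] at h1
  obtain ⟨W1, hW1, W2, hW2, h12⟩ := h1
  refine ⟨W1, hW1, W2, hW2, ?_⟩
  rintro P' Q' ⟨c, hc, hcP⟩ ⟨c', hc', hcQ⟩
  obtain ⟨s', hs', h'⟩ := lam_spec A P' Q'
  have h2 : G (c • P'.1, c' • Q'.1) ∈ W ∩ {x | x i0 ≠ 0} := h12 ⟨hcP, hcQ⟩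
  have h3 : G (c • P'.1, c' • Q'.1) =
      (s⁻¹ * (c ^ 2 * c' ^ 2 * (s' * (P' + Q').1 j))) • (P' - Q').1 := by
    funext i
    simp only [hG]
    rw [ev_lam_smul, h', Pi.smul_apply, smul_eq_mul]
    ring
  rw [h3] at h2
  refine ⟨_, ?_, h2.1⟩
  intro h0
  have h4 := h2.2
  rw [h0] at h4
  exact h4 (by simp)

lemma aeval_smul1 {F : Type} [Field F] [Algebra K F] {f : MvPolynomial (Fin n) K} {D : ℕ}
    (hf : f.IsHomogeneous D) (s : F) (v : Fin n → F) :
    aeval (s • v) f = s ^ D * aeval v f := aeval_smul' hf s v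

/-- a nonzero vector which satisfies the equations is a multiple of a point -/
lemma exists_pt (A : AbVar K n) {F : Type} [Field F] [Algebra K F] {w : Fin n → F} (hw : w ≠ 0)
    (h : ∀ i, aeval w (A.eqn i) = 0) : ∃ (s : F) (R : A.Pt F), s ≠ 0 ∧ w = s • R.1 := by
  obtain ⟨s, v, hs, hv, rfl⟩ := exists_normed hw
  refine ⟨s, ⟨v, hv, fun i => ?_⟩, hs, rfl⟩
  have h1 := h i
  rw [aeval_smul1 (A.hom i)] at h1
  exact (mul_eq_zero.mp h1).resolve_left (pow_ne_zero _ hs)

include L in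
/-- some nonzero multiples are near zero -/
lemma exists_mult (A : AbVar K n) (P : A.Pt E) {W : Set (Fin n → E)}
    (hW : W ∈ 𝓝 (0 : A.Pt E).1) : ∃ m : ℤ, m ≠ 0 ∧ Nr W (m • P).1 := by
  have := topring L E
  have := t2E L E
  obtain ⟨c, φ, w, hc, hφ, hw, hlim⟩ := compact_dir (L := L) (fun k : ℕ => ((k : ℤ) • P).1)
    (fun k => ((k : ℤ) • P).2.1.ne_zero)
  have hcont : ∀ i, Continuous fun x : Fin n → E => aeval x (A.eqn i) := by
    intro i
    have h : (fun x : Fin n → E => aeval x (A.eqn i)) =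
        fun x => eval x (MvPolynomial.map (algebraMap K E) (A.eqn i)) := by
      funext x
      rw [aeval_def, eval₂_eq_eval_map]
    rw [h]
    exact MvPolynomial.continuous_eval _
  have hweq : ∀ i, aeval w (A.eqn i) = 0 := by
    intro i
    have h1 := ((hcont i).tendsto w).comp hlim
    have h2 : (fun x : Fin n → E => aeval x (A.eqn i)) ∘
        (fun k => c (φ k) • ((φ k : ℤ) • P).1) = fun _ => 0 := by
      funext k
      simp only [Function.comp]
      rw [aeval_smul1 (A.hom i), (((φ k : ℤ) • P).2.2 i), mul_zero]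
    rw [h2] at h1
    exact tendsto_nhds_unique h1 tendsto_const_nhds
  obtain ⟨s, R, hs, rfl⟩ := exists_pt A hw hweq
  have hW2 : W ∈ 𝓝 (R - R).1 := by rwa [sub_self]
  obtain ⟨W1, hW1, W2, hW2, h12⟩ := cont_sub (L := L) A R R hW2
  have hlim2 : Tendsto (fun k => (s⁻¹ * c (φ k)) • ((φ k : ℤ) • P).1) atTop (𝓝 R.1) := by
    have h1 : Tendsto (fun k => s⁻¹ • (c (φ k) • ((φ k : ℤ) • P).1)) atTop (𝓝 (s⁻¹ • (s • R.1))) :=
      hlim.const_smul s⁻¹
    rw [inv_smul_smul₀ hs] at h1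
    refine h1.congr fun k => ?_
    rw [smul_smul]
  have hev := hlim2.eventually (inter_mem hW1 hW2)
  obtain ⟨k0, hk0⟩ := eventually_atTop.1 hev
  have hnr : ∀ k, k0 ≤ k → Nr (W1 ∩ W2) ((φ k : ℤ) • P).1 := fun k hk =>
    ⟨_, mul_ne_zero (inv_ne_zero hs) (hc _), hk0 k hk⟩
  have h3 := h12 _ _ ((hnr (k0 + 1) (Nat.le_succ _)).mono Set.inter_subset_left)
    ((hnr k0 le_rfl).mono Set.inter_subset_right)
  refine ⟨(φ (k0 + 1) : ℤ) - φ k0, ?_, ?_⟩
  · have := hφ (Nat.lt_add_one k0)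
    omega
  · rw [sub_smul]
    exact h3

end Pool.Agent.K1H82.KM
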