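import Pool.Agent.K1H82.KM.Rat
import Pool.Agent.Helper259.HtExt

/-!
# Finiteness of the set of the rational images of torsion points
-/

set_option autoImplicit false
set_option linter.unusedSectionVars false

open MvPolynomial Pool.Agent.TH954.X NumberField Height Pool.Agent.TH954.V

namespace Pool.Agent.K1H82.KM

lemma north (K : Type) [Field K] [NumberField K] (N : ℕ) (B : ℝ) :
    {y : Fin N → K | Normed y ∧ logHeight y ≤ B}.Finite := by
  have h := NumberField.finite_setOfPred_mulHeight₁_le (K := K) (Real.exp B)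
  refine (Set.Finite.pi (fun _ : Fin N => h)).subset ?_
  rintro y ⟨⟨i, hi, -⟩, hy⟩
  rw [Set.mem_pi]
  intro c _
  change mulHeight₁ (y c) ≤ Real.exp B
  rw [mulHeight₁_eq_mulHeight]
  have h1 : ![y c, 1] = y ∘ ![c, i] := by
    funext j
    fin_cases j
    · rfl
    · exact hi.symm
  rw [h1]
  refine (mulHeight_comp_le _ _).trans ?_
  rw [logHeight_eq_log_mulHeight] at hy
  exact (Real.log_le_iff_le_exp (mulHeight_pos y)).1 hy

/-- upper bound for the heights of the values of forms -/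
theorem ht_val {K : Type} [Field K] [NumberField K] {n r N : ℕ}
    (Fam : Finset (Fin N → MvPolynomial (Fin r × Fin n) K)) (d : Fin r → ℕ)
    (hFam : ∀ C ∈ Fam, ∀ c, MH d (C c)) :
    ∃ B : ℝ, 0 ≤ B ∧ ∀ (E : Type) [Field E] [NumberField E] [Algebra K E]
      (u : Fin r → Fin n → E) (x : Fin N → E), (∀ j, u j ≠ 0) → Val Fam u x →
      logHeight x ≤ ∑ j, (d j : ℝ) * logHeight (u j) + B * Module.finrank ℚ E := by
  classical
  choose A' M' hM' hA' using fun p : {C // C ∈ Fam} × Fin N =>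
    nvW_le (p.1.1 p.2) d (hFam p.1.1 p.1.2 p.2)
  choose C2 hC2 hC2' using fun p => tot_kap (A' p) (hM' p) 1
  refine ⟨∑ p, C2 p, Finset.sum_nonneg (fun p _ => hC2 p), fun E _ _ _ u x hu hv => ?_⟩
  have hx0 := hv.ne_zero
  obtain ⟨C, hC, s, hs0, hs⟩ := hv.exists_ne
  have hkp : ∀ (B : Finset K) (m e : ℕ), 1 ≤ m → ∀ w : AbsoluteValue E ℝ, 0 < kap B m e w :=
    fun B m e hm w => zero_lt_one.trans_le (one_le_kap B hm e w)
  have Fs : FS (fun w : AbsoluteValue E ℝ => Real.log (w s)) := FS_log hs0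
  have Fx : FS (fun w : AbsoluteValue E ℝ => Real.log (⨆ c, w (x c))) := FS_sup' hx0
  have Fu : ∀ j, FS (fun w : AbsoluteValue E ℝ => Real.log (⨆ c, w (u j c))) :=
    fun j => FS_sup' (hu j)
  have Fk : FS (fun w : AbsoluteValue E ℝ => ∑ p, Real.log (kap (A' p) (M' p) 1 w)) :=
    FS_sum _ (fun p _ => (hC2' p E).1)
  have Fsum : FS (fun w : AbsoluteValue E ℝ => ∑ j, (d j : ℝ) * Real.log (⨆ c, w (u j c))) :=
    FS_sum _ (fun j _ => FS_mul (Fu j) _)
  have hpos : ∀ w : AbsoluteValue E ℝ, 0 < ∏ j, (⨆ c, w (u j c)) ^ d j := fun w =>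
    Finset.prod_pos (fun j _ => pow_pos (sup_posW w (hu j)) _)
  have hlogprod : ∀ w : AbsoluteValue E ℝ, Real.log (∏ j, (⨆ c, w (u j c)) ^ d j) =
      ∑ j, (d j : ℝ) * Real.log (⨆ c, w (u j c)) := by
    intro w
    rw [Real.log_prod (fun j _ => (pow_pos (sup_posW w (hu j)) _).ne')]
    simp_rw [Real.log_pow]
  have hineq : ∀ w : AbsoluteValue E ℝ, Real.log (w s) + Real.log (⨆ c, w (x c)) ≤
      ∑ p, Real.log (kap (A' p) (M' p) 1 w) + ∑ j, (d j : ℝ) * Real.log (⨆ c, w (u j c)) := by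
    intro w
    have hne : Nonempty (Fin N) := let ⟨i, _⟩ := Function.ne_iff.mp hx0; ⟨i⟩
    obtain ⟨c, hc⟩ := exists_supW w x
    have h1 := hA' (⟨C, hC⟩, c) E w u hu
    unfold nvW at h1
    have h2 : ev (C c) u = s * x c := congrFun hs c
    rw [div_le_iff₀ (hpos w)] at h1
    change w (ev (C c) u) ≤ _ at h1
    rw [h2, w.map_mul, hc] at h1
    have h3 := Real.log_le_log (mul_pos (w.pos hs0) (sup_posW w hx0)) h1
    rw [Real.log_mul (w.pos hs0).ne' (sup_posW w hx0).ne',
      Real.log_mul (hkp _ _ _ (hM' _) w).ne' (hpos w).ne', hlogprod] at h3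
    have h4 : Real.log (kap (A' (⟨C, hC⟩, c)) (M' (⟨C, hC⟩, c)) 1 w) ≤
        ∑ p, Real.log (kap (A' p) (M' p) 1 w) :=
      Finset.single_le_sum (f := fun p => Real.log (kap (A' p) (M' p) 1 w))
        (fun p _ => Real.log_nonneg (one_le_kap _ (hM' p) 1 w)) (Finset.mem_univ _)
    linarith
  have t1 := tot_le (FS_add Fs Fx) (FS_add Fk Fsum) (fun w => hineq (ai w))
    (fun v => hineq (av v))
  rw [tot_add Fs Fx, tot_log hs0, tot_sup' hx0, tot_add Fk Fsum,
    tot_sum _ (fun p _ => (hC2' p E).1), tot_sum _ (fun j _ => FS_mul (Fu j) _)] at t1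
  have h5 : ∑ j, tot (fun w : AbsoluteValue E ℝ => (d j : ℝ) * Real.log (⨆ c, w (u j c))) =
      ∑ j, (d j : ℝ) * logHeight (u j) := by
    refine Finset.sum_congr rfl (fun j _ => ?_)
    rw [tot_mul (Fu j), tot_sup' (hu j)]
  have h6 : ∑ p, tot (fun w : AbsoluteValue E ℝ => Real.log (kap (A' p) (M' p) 1 w)) ≤
      (∑ p, C2 p) * Module.finrank ℚ E := by
    rw [Finset.sum_mul]
    exact Finset.sum_le_sum (fun p _ => (hC2' p E).2)
  rw [h5] at t1
  linarith

/-- the heights of the torsion points are bounded -/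
theorem tors_ht {K : Type} [Field K] [NumberField K] {n : ℕ} (A : AbVar K n) :
    ∃ C : ℝ, 0 ≤ C ∧ ∀ (E : Type) [Field E] [NumberField E] [Algebra K E] (P : A.Pt E) (m : ℤ),
      m ≠ 0 → m • P = 0 → logHeight P.1 ≤ C * Module.finrank ℚ E := by
  obtain ⟨C, hC, h⟩ := canA A.toAbR
  refine ⟨C, hC, fun E _ _ _ P m hm hP => ?_⟩
  obtain ⟨q, hq0, hq1, hq2⟩ := h E
  have h1 : ∀ (m : ℤ) (Q : A.toAbR.Pt E), q (m • Q) = (m : ℝ) ^ 2 * q Q := fun m Q =>
    TH954.q_zsmul hq1 m Q
  have h0 : q (0 : A.toAbR.Pt E) = 0 := by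
    have := h1 0 (0 : A.toAbR.Pt E)
    rwa [zero_smul, Int.cast_zero, zero_pow two_ne_zero, zero_mul] at this
  have h2 : q (m • (P : A.toAbR.Pt E)) = (m : ℝ) ^ 2 * q P := h1 m P
  have h3 : q (m • (P : A.toAbR.Pt E)) = 0 := by
    have : (m • (P : A.toAbR.Pt E)) = (0 : A.toAbR.Pt E) := hP
    rw [this, h0]
  rw [h3] at h2
  have h4 : q P = 0 := (mul_eq_zero.1 h2.symm).resolve_left
    (pow_ne_zero _ (Int.cast_ne_zero.2 hm))
  have h5 := (abs_le.1 (hq2 P)).1
  rw [h4] at h5
  linarith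

section field

variable {K : Type} [Field K] {n r : ℕ} {A : Fin r → AbVar K n}

/-- a tuple of points over the algebraic closure is defined over a finite extension -/
lemma exists_field (P : Pts A (AlgebraicClosure K)) :
    ∃ E : IntermediateField K (AlgebraicClosure K), FiniteDimensional K E ∧
      ∃ P' : Pts A E, ∀ b, mapPt (A b) E.val (P' b) = P b := by
  refine ⟨IntermediateField.adjoin K (Set.range fun p : Fin r × Fin n => (P p.1).1 p.2), ?_, ?_⟩
  · have : Finite (Set.range fun p : Fin r × Fin n => (P p.1).1 p.2) := Set.finite_range _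
    refine IntermediateField.finiteDimensional_adjoin (fun x _ => ?_)
    exact (AlgebraicClosure.isAlgebraic K).isIntegral.isIntegral x
  · set E := IntermediateField.adjoin K (Set.range fun p : Fin r × Fin n => (P p.1).1 p.2) with hE
    have hmem : ∀ b c, (P b).1 c ∈ E := fun b c =>
      IntermediateField.subset_adjoin K _ ⟨(b, c), rfl⟩
    refine ⟨fun b => ⟨fun c => ⟨(P b).1 c, hmem b c⟩, ?_, fun i => ?_⟩, fun b => ?_⟩
    · obtain ⟨i, hi, hj⟩ := (P b).2.1
      exact ⟨i, Subtype.ext hi, fun j hji => Subtype.ext (hj j hji)⟩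
    · apply E.val.toRingHom.injective
      have h1 := MvPolynomial.comp_aeval_apply (f := fun c => (⟨(P b).1 c, hmem b c⟩ : E)) E.val
        ((A b).eqn i)
      change E.val _ = E.val 0
      rw [h1, map_zero]
      exact (P b).2.2 i
    · rfl

end field

section main

variable {K : Type} [Field K] {n r N : ℕ} {A : Fin r → AbVar K n} {G : Type} [Group G]

/-- the rational images of tuples of torsion points -/
def TorSet (X : QuotVar A N G) : Set (Fin N → K) :=
  {y | Normed y ∧ ∃ P : Pts A (AlgebraicClosure K), (∀ b, ∃ m : ℤ, m ≠ 0 ∧ m • P b = 0) ∧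
    Val X.Fam (crds P) (up y)}

theorem tor_fin [NumberField K] (X : QuotVar A N G) : (TorSet X).Finite := by
  obtain ⟨B, hB, hval⟩ := ht_val X.Fam X.d X.Fam_hom
  choose C hC htor using fun b => tors_ht (A b)
  refine (north K N ((∑ b, X.d b * C b + B) * Module.finrank ℚ K)).subset ?_
  rintro y ⟨hy, P, hP, hv⟩
  refine ⟨hy, ?_⟩
  obtain ⟨E, hE, P', hP'⟩ := exists_field P
  have hNF : NumberField E := NumberField.of_module_finite K E
  have hv' : Val X.Fam (crds P') (fun c => algebraMap K E (y c)) := by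
    refine Val.of_map E.val ?_
    have h1 : crds P = fun j c => E.val (crds P' j c) := by
      funext j c
      exact (congrArg (fun R : (A j).Pt (AlgebraicClosure K) => R.1 c) (hP' j)).symm
    rw [← h1]
    exact hv
  have h2 := hval E (crds P') _ (fun j => (P' j).2.1.ne_zero) hv'
  have h3 : ∀ b, logHeight (crds P' b) ≤ C b * Module.finrank ℚ E := by
    intro b
    obtain ⟨m, hm, hmP⟩ := hP b
    refine htor b E (P' b) m hm ?_
    apply mapPt_inj (A b) E.val
    change mapH (A b) E.val (m • P' b) = mapH (A b) E.val 0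
    rw [map_zsmul, map_zero, mapH_apply, hP']
    exact hmP
  rw [Helper259.HtExt.logHeight_ext] at h2
  have h4 : (Module.finrank ℚ E : ℝ) = Module.finrank ℚ K * Module.finrank K E := by
    rw [← Nat.cast_mul, Module.finrank_mul_finrank]
  have h5 : (0 : ℝ) < Module.finrank K E := by
    exact_mod_cast Module.finrank_pos
  have h6 : ∑ j, (X.d j : ℝ) * logHeight (crds P' j) ≤
      (∑ b, X.d b * C b) * Module.finrank ℚ E := by
    rw [Finset.sum_mul]
    refine Finset.sum_le_sum (fun b _ => ?_)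
    rw [mul_assoc]
    exact mul_le_mul_of_nonneg_left (h3 b) (Nat.cast_nonneg _)
  have h7 : (Module.finrank K E : ℝ) * logHeight y ≤
      Module.finrank K E * ((∑ b, X.d b * C b + B) * Module.finrank ℚ K) := by
    rw [h4] at h2 h6
    nlinarith [h2, h6]
  exact le_of_mul_le_mul_left h7 h5

end main

end Pool.Agent.K1H82.KM
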